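import Pool.Agent.CHR.MCORE
import Pool.Agent.CHR.MSUM
import Pool.Agent.CHR.MZERO
import Pool.Agent.Lib_helper56.HP.A1
import Pool.Agent.Lib_helper56.HP.A2

/-!
# A crude form of the known bound: `|q| ≤ 5 Δ`

From the induction `S_CORE` of `Pool/Agent/CHR`.
-/

set_option autoImplicit false

open Finset Polynomial Pool.Agent.HP Pool.Agent.CHR

namespace Pool.Agent.HUBT.Fin5

theorem sum_exp (D : ℕ) (hD : 1 ≤ D) (b : ℕ) :
    ∑ j ∈ range b, Real.exp ((j : ℝ) / D) ≤ D * (Real.exp ((b : ℝ) / D) - 1) := by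
  have h := (t_SUM 1 D one_pos hD).1 0 b (Nat.zero_le b)
  simpa using h

theorem five_ne (D : ℕ) (hD : 1 ≤ D) (q : ℂ) (hq : 5 * (D : ℝ) < ‖q‖) (V : Type) [Fintype V]
    [DecidableEq V] (L : SimpleGraph V) (hdeg : ∀ u, (nb L u).card ≤ D) :
    (chi L).eval q ≠ 0 := by
  have hD0 : (0 : ℝ) < D := by exact_mod_cast hD
  have he : 0 < Real.exp 1 := Real.exp_pos 1
  have he2 : Real.exp 1 < 2.7182818286 := Real.exp_one_lt_d9
  have hmono : Monotone (fun b : ℕ => Real.exp ((b : ℝ) / D)) := by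
    intro a b hab
    refine Real.exp_le_exp.2 ?_
    have : (a : ℝ) ≤ b := by exact_mod_cast hab
    exact div_le_div_of_nonneg_right this hD0.le
  refine t_CORE Pool.Agent.HP.empty (A2.insert evalNat) (A2.del iso) (A2.delE iso) q D
    (fun b => Real.exp ((b : ℝ) / D)) (fun b => Real.exp ((b : ℝ) / D) - 1)
    (fun ρ => Real.exp 1 * D ≤ ‖ρ‖) hmono ?_ ?_ ?_ ?_ V L hdeg
  · intro a b hab
    have := hmono hab
    simp only at this ⊢
    linarith
  · intro ρ hρ h0
    rw [h0, norm_zero] at hρ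
    have : 0 < Real.exp 1 * D := mul_pos he hD0
    linarith
  · intro k a hk ha
    have h1 : ‖∑ i ∈ range k, a i‖ ≤ D * (Real.exp ((k : ℝ) / D) - 1) := by
      refine (norm_sum_le _ _).trans ((sum_le_sum fun i hi => ?_).trans (sum_exp D hD k))
      exact (ha i (mem_range.1 hi)).1
    have h2 : Real.exp ((k : ℝ) / D) ≤ Real.exp 1 := by
      refine Real.exp_le_exp.2 ?_
      rw [div_le_one hD0]
      exact_mod_cast hk
    have h3 : ‖q‖ ≤ ‖q - ∑ i ∈ range k, a i‖ + ‖∑ i ∈ range k, a i‖ := by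
      have := norm_add_le (q - ∑ i ∈ range k, a i) (∑ i ∈ range k, a i)
      rwa [sub_add_cancel] at this
    have h4 : (D : ℝ) * (Real.exp ((k : ℝ) / D) - 1) ≤ D * (Real.exp 1 - 1) :=
      mul_le_mul_of_nonneg_left (by linarith) hD0.le
    show Real.exp 1 * D ≤ ‖q - ∑ i ∈ range k, a i‖
    nlinarith
  · intro ρ b a hρ ha
    have hρ0 : 0 < ‖ρ‖ := lt_of_lt_of_le (mul_pos he hD0) hρ
    have hexp : ∀ j : ℕ, Real.exp (((D + j : ℕ) : ℝ) / D) =
        Real.exp 1 * Real.exp ((j : ℝ) / D) := by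
      intro j
      rw [← Real.exp_add]
      congr 1
      push_cast
      field_simp
    have h1 : ‖∑ j ∈ range b, a j‖ ≤ Real.exp 1 * (D * (Real.exp ((b : ℝ) / D) - 1)) := by
      refine (norm_sum_le _ _).trans ?_
      calc ∑ j ∈ range b, ‖a j‖ ≤ ∑ j ∈ range b, Real.exp 1 * Real.exp ((j : ℝ) / D) := by
            refine sum_le_sum fun j hj => ?_
            rw [← hexp j]
            exact (ha j (mem_range.1 hj)).1
        _ = Real.exp 1 * ∑ j ∈ range b, Real.exp ((j : ℝ) / D) := by rw [mul_sum]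
        _ ≤ _ := mul_le_mul_of_nonneg_left (sum_exp D hD b) he.le
    have h2 : ‖(∑ j ∈ range b, a j) / ρ‖ ≤ Real.exp ((b : ℝ) / D) - 1 := by
      rw [norm_div, div_le_iff₀ hρ0]
      have h3 : 0 ≤ Real.exp ((b : ℝ) / D) - 1 := by
        have := Real.add_one_le_exp ((b : ℝ) / D)
        have h4 : 0 ≤ (b : ℝ) / D := by positivity
        linarith
      have h5 := mul_le_mul_of_nonneg_left hρ h3
      linarith
    refine ⟨?_, h2⟩
    have h6 := norm_sub_le (1 : ℂ) ((∑ j ∈ range b, a j) / ρ)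
    rw [norm_one] at h6
    show ‖1 - (∑ j ∈ range b, a j) / ρ‖ ≤ Real.exp ((b : ℝ) / D)
    linarith

theorem nb_card {V : Type} [Fintype V] [DecidableEq V] (G : SimpleGraph V) [DecidableRel G.Adj]
    (u : V) : (nb G u).card = G.degree u := by
  rw [← SimpleGraph.card_neighborFinset_eq_degree,
    ← card_map (Function.Embedding.subtype (fun v : V => v ≠ u))]
  congr 1
  ext v
  rw [mem_map, SimpleGraph.mem_neighborFinset]
  constructor
  · rintro ⟨w, hw, rfl⟩
    exact (A2.mem_nb G u w).1 hw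
  · intro h
    exact ⟨⟨v, h.ne'⟩, (A2.mem_nb G u _).2 h, rfl⟩

end Pool.Agent.HUBT.Fin5
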