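import Pool.Agent.HUBT.MNUMA
import Pool.Agent.HUBT.Five

/-!
# HubDegrees: assembly
-/

set_option autoImplicit false

open Finset Polynomial Pool.Agent.HP Pool.Agent.HUBT.Fin5

namespace Pool.Agent.HUBT.Asm

theorem gen (hCORE : S_CORE) (q : ℂ) (lam c M D d h η0 η1 : ℝ) (hq1 : 1 < ‖q‖) (hlam : 0 < lam)
    (hc : 0 ≤ c) (hM : 0 ≤ M) {V : Type} [Fintype V] [DecidableEq V] (L : SimpleGraph V)
    [DecidableRel L.Adj] (hb : V → Prop) [DecidablePred hb]
    (hdeg : ∀ v, (L.degree v : ℝ) ≤ D) (hsm : ∀ v, ¬ hb v → (L.degree v : ℝ) ≤ d)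
    (hhub : ∀ v, (((L.neighborFinset v).filter hb).card : ℝ) ≤ h)
    (hη0 : (2 * d + lam * M * h) / ‖q‖ ≤ η0) (hη1 : (2 * D + lam * M * h) / ‖q‖ ≤ η1)
    (hC0 : ∀ n : ℕ, (n : ℝ) ≤ d → Cond ‖q‖ lam c (2 / lam) n η0)
    (hC1 : ∀ n : ℕ, (n : ℝ) ≤ D → Cond ‖q‖ lam c M n η1) : (chi L).eval q ≠ 0 := by
  have hx0 : 0 < ‖q‖ := by linarith
  have hsum : ∀ v, lam / ‖q‖ * ∑ z ∈ univ.filter (fun z => L.Adj v z),
      (if hb z then M else 2 / lam) ≤ (2 * L.degree v + lam * M * h) / ‖q‖ := by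
    intro v
    rw [← SimpleGraph.neighborFinset_eq_filter, Finset.sum_ite, sum_const, sum_const, nsmul_eq_mul,
      nsmul_eq_mul]
    have h1 := hhub v
    have h2 : (((L.neighborFinset v).filter (fun z => ¬ hb z)).card : ℝ) ≤ L.degree v := by
      rw [← SimpleGraph.card_neighborFinset_eq_degree]
      exact_mod_cast card_filter_le _ _
    have h3 : (((L.neighborFinset v).filter hb).card : ℝ) * M ≤ h * M :=
      mul_le_mul_of_nonneg_right h1 hM
    have h4 : (((L.neighborFinset v).filter (fun z => ¬ hb z)).card : ℝ) * (2 / lam) ≤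
        L.degree v * (2 / lam) := mul_le_mul_of_nonneg_right h2 (by positivity)
    calc lam / ‖q‖ * (((L.neighborFinset v).filter hb).card * M +
          ((L.neighborFinset v).filter (fun z => ¬ hb z)).card * (2 / lam))
        ≤ lam / ‖q‖ * (h * M + L.degree v * (2 / lam)) :=
          mul_le_mul_of_nonneg_left (add_le_add h3 h4) (by positivity)
      _ = (2 * L.degree v + lam * M * h) / ‖q‖ := by
          field_simp
          ring
  refine hCORE q lam c hq1 hlam hc V L (fun v => if hb v then M else 2 / lam)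
    (fun v => L.degree v) (fun v => if hb v then η1 else η0) ?_ ?_ ?_
  · intro v
    rw [← SimpleGraph.card_neighborFinset_eq_degree, SimpleGraph.neighborFinset_eq_filter]
  · intro v
    refine (hsum v).trans ?_
    by_cases hv : hb v
    · simp only [hv, if_true]
      refine le_trans ?_ hη1
      have := hdeg v
      gcongr
    · simp only [hv, if_false]
      refine le_trans ?_ hη0
      have := hsm v hv
      gcongr
  · intro v
    by_cases hv : hb v
    · simp only [hv, if_true]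
      exact hC1 _ (hdeg v)
    · simp only [hv, if_false]
      exact hC0 _ (hsm v hv)

/-- first part -/
theorem partA (hCORE : S_CORE) {V : Type} [Fintype V] [DecidableEq V] (G : SimpleGraph V)
    [DecidableRel G.Adj] (h0 : 0 < G.maxDegree)
    (hub : ∀ v : V, 1000 * ((G.neighborFinset v).filter
        (fun w => G.maxDegree < 20 * G.degree w)).card ≤ G.maxDegree)
    (q : ℂ) (hq : (G.maxDegree : ℝ) ≤ ‖q‖) : (chi G).eval q ≠ 0 := by
  have hne : Nonempty V := by
    by_contra hcon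
    rw [not_nonempty_iff] at hcon
    simp at h0
  obtain ⟨v, hv⟩ := G.exists_maximal_degree_vertex
  obtain ⟨w, hw⟩ : ∃ w, G.Adj v w := by
    rw [← G.degree_pos_iff_exists_adj, ← hv]
    exact h0
  have hbig : 1000 ≤ G.maxDegree := by
    have h1 : 1 ≤ ((G.neighborFinset w).filter
        (fun w => G.maxDegree < 20 * G.degree w)).card := by
      rw [Nat.one_le_iff_ne_zero, ← Nat.pos_iff_ne_zero, card_pos]
      refine ⟨v, ?_⟩
      rw [mem_filter, SimpleGraph.mem_neighborFinset]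
      exact ⟨hw.symm, by omega⟩
    have := hub w
    omega
  have hbig' : (1000 : ℝ) ≤ G.maxDegree := by exact_mod_cast hbig
  have hx : (1000 : ℝ) ≤ ‖q‖ := hbig'.trans hq
  have hx0 : 0 < ‖q‖ := by linarith
  obtain ⟨hA, hB⟩ := t_NUMA ‖q‖ hx
  refine gen hCORE q 37 (37 / 40) (7 / 2) G.maxDegree (G.maxDegree / 20) (G.maxDegree / 1000)
    (2295 / 10000) (21295 / 10000) (by linarith) (by norm_num) (by norm_num) (by norm_num) G
    (fun w => G.maxDegree < 20 * G.degree w) ?_ ?_ ?_ ?_ ?_ ?_ ?_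
  · intro v
    exact_mod_cast G.degree_le_maxDegree v
  · intro v hv
    have h1 : 20 * G.degree v ≤ G.maxDegree := not_lt.1 hv
    have h2 : 20 * (G.degree v : ℝ) ≤ G.maxDegree := by exact_mod_cast h1
    linarith
  · intro v
    have h1 := hub v
    have h2 : 1000 * (((G.neighborFinset v).filter
        (fun w => G.maxDegree < 20 * G.degree w)).card : ℝ) ≤ G.maxDegree := by exact_mod_cast h1
    linarith
  · rw [div_le_iff₀ hx0]
    linarith
  · rw [div_le_iff₀ hx0]
    linarith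
  · intro n hn
    exact hA n (by linarith)
  · intro n hn
    exact hB n (by linarith)

/-- second part -/
theorem partB (hCORE : S_CORE) (hNUMB : S_NUMB) {V : Type} [Fintype V] [DecidableEq V]
    (G : SimpleGraph V) [DecidableRel G.Adj] (h0 : 0 < G.maxDegree) (h : ℕ)
    (hub : ∀ v : V, ((G.neighborFinset v).filter (fun w => h < G.degree w)).card ≤ h)
    (K : ℝ) (hK : 1 ≤ K) (hR : (300 : ℝ) ^ K * (h : ℝ) ≤ (G.maxDegree : ℝ))
    (q : ℂ) (hq : (G.maxDegree : ℝ) / K ≤ ‖q‖) : (chi G).eval q ≠ 0 := by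
  have hne : Nonempty V := by
    by_contra hcon
    rw [not_nonempty_iff] at hcon
    simp at h0
  obtain ⟨v, hv⟩ := G.exists_maximal_degree_vertex
  obtain ⟨w, hw⟩ : ∃ w, G.Adj v w := by
    rw [← G.degree_pos_iff_exists_adj, ← hv]
    exact h0
  have hh : 1 ≤ h := by
    by_contra hcon
    have hh0 : h = 0 := by omega
    have h1 : 1 ≤ ((G.neighborFinset w).filter (fun w => h < G.degree w)).card := by
      rw [Nat.one_le_iff_ne_zero, ← Nat.pos_iff_ne_zero, card_pos]
      refine ⟨v, ?_⟩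
      rw [mem_filter, SimpleGraph.mem_neighborFinset]
      exact ⟨hw.symm, by omega⟩
    have := hub w
    omega
  have hh' : (1 : ℝ) ≤ h := by exact_mod_cast hh
  have hK0 : 0 < K := by linarith
  have hq' : (G.maxDegree : ℝ) ≤ K * ‖q‖ := by
    rw [div_le_iff₀ hK0] at hq
    linarith
  have hR0 : 0 < (300 : ℝ) ^ K := by positivity
  have hRK : K < (300 : ℝ) ^ K := by
    have h1 : Real.exp K ≤ (300 : ℝ) ^ K := by
      rw [← Real.exp_one_rpow]
      refine Real.rpow_le_rpow (Real.exp_pos 1).le ?_ hK0.le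
      have := Real.exp_one_lt_d9
      linarith
    have h2 := Real.add_one_le_exp K
    linarith
  have hRx : (300 : ℝ) ^ K ≤ K * ‖q‖ := by
    have h1 : (300 : ℝ) ^ K * 1 ≤ (300 : ℝ) ^ K * h := mul_le_mul_of_nonneg_left hh' hR0.le
    linarith
  have hx : 1 < ‖q‖ := by
    have h1 : K * 1 < K * ‖q‖ := by linarith
    exact lt_of_mul_lt_mul_left h1 hK0.le
  have hx0 : 0 < ‖q‖ := by linarith
  obtain ⟨hA, hB⟩ := hNUMB ‖q‖ K hK hRx
  have hlam : 0 < 7 / 2 * Real.exp (3 * K) := by positivity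
  have hhx : (h : ℝ) / ‖q‖ ≤ K / (300 : ℝ) ^ K := by
    rw [div_le_div_iff₀ hx0 hR0]
    linarith
  refine gen hCORE q (7 / 2 * Real.exp (3 * K)) (4 / 5) (5 / 4) G.maxDegree h h
    (K * (2 + 7 / 2 * Real.exp (3 * K) * (5 / 4)) / (300 : ℝ) ^ K)
    (2 * K + K * (2 + 7 / 2 * Real.exp (3 * K) * (5 / 4)) / (300 : ℝ) ^ K)
    hx hlam (by norm_num) (by norm_num) G (fun w => h < G.degree w) ?_ ?_ ?_ ?_ ?_ ?_ ?_
  · intro v
    exact_mod_cast G.degree_le_maxDegree v
  · intro v hv
    have h1 : G.degree v ≤ h := not_lt.1 hv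
    exact_mod_cast h1
  · intro v
    exact_mod_cast hub v
  · calc (2 * (h : ℝ) + 7 / 2 * Real.exp (3 * K) * (5 / 4) * h) / ‖q‖
        = (2 + 7 / 2 * Real.exp (3 * K) * (5 / 4)) * (h / ‖q‖) := by ring
      _ ≤ (2 + 7 / 2 * Real.exp (3 * K) * (5 / 4)) * (K / (300 : ℝ) ^ K) :=
          mul_le_mul_of_nonneg_left hhx (by positivity)
      _ = _ := by ring
  · calc (2 * (G.maxDegree : ℝ) + 7 / 2 * Real.exp (3 * K) * (5 / 4) * h) / ‖q‖
        = 2 * (G.maxDegree / ‖q‖) + 7 / 2 * Real.exp (3 * K) * (5 / 4) * (h / ‖q‖) := by ring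
      _ ≤ 2 * K + (2 + 7 / 2 * Real.exp (3 * K) * (5 / 4)) * (K / (300 : ℝ) ^ K) := by
          have h1 : (G.maxDegree : ℝ) / ‖q‖ ≤ K := by
            rw [div_le_iff₀ hx0]
            exact hq'
          have h2 : 7 / 2 * Real.exp (3 * K) * (5 / 4) * (h / ‖q‖) ≤
              (2 + 7 / 2 * Real.exp (3 * K) * (5 / 4)) * (K / (300 : ℝ) ^ K) := by
            refine mul_le_mul (by linarith) hhx (by positivity) (by positivity)
          linarith
      _ = _ := by ring
  · intro n hn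
    refine hA n ?_
    have h1 : (n : ℝ) * (300 : ℝ) ^ K ≤ h * (300 : ℝ) ^ K := mul_le_mul_of_nonneg_right hn hR0.le
    linarith
  · intro n hn
    exact hB n (hn.trans hq')

/-- the universal bound -/
theorem partC (h5 : ∀ {V : Type} [Fintype V] [DecidableEq V] (G : SimpleGraph V)
      [DecidableRel G.Adj] (_ : 0 < G.maxDegree) (q : ℂ) (_ : (chi G).eval q = 0),
      ‖q‖ ≤ 5 * G.maxDegree)
    (hCORE : S_CORE) (hNUMB : S_NUMB) {V : Type} [Fintype V] [DecidableEq V]
    (G : SimpleGraph V) [DecidableRel G.Adj] (h0 : 0 < G.maxDegree) (h : ℕ)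
    (hub : ∀ v : V, ((G.neighborFinset v).filter (fun w => h < G.degree w)).card ≤ h)
    (q : ℂ) (hq : (chi G).eval q = 0) :
    ‖q‖ * Real.log (1 + (G.maxDegree : ℝ) / (h : ℝ)) ≤ 29 * (G.maxDegree : ℝ) := by
  have hlog300 : Real.log 300 ≤ 57038 / 10000 := by
    rw [Real.log_le_iff_le_exp (by norm_num)]
    have h1 : Real.exp (57038 / 10000 : ℝ) =
        (Real.exp 1) ^ 5 * Real.exp (7038 / 10000 : ℝ) := by
      rw [← Real.exp_nat_mul, ← Real.exp_add]
      congr 1
      norm_num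
    have h2 : (2.7182818283 : ℝ) ^ 5 ≤ (Real.exp 1) ^ 5 :=
      pow_le_pow_left₀ (by norm_num) Real.exp_one_gt_d9.le 5
    have h3 : (2.0214 : ℝ) ≤ Real.exp (7038 / 10000 : ℝ) := by
      have h4 := Real.sum_le_exp_of_nonneg (x := (7038 / 10000 : ℝ)) (by norm_num) 8
      refine le_trans ?_ h4
      simp only [Finset.sum_range_succ, Finset.sum_range_zero, Nat.factorial]
      norm_num
    rw [h1]
    calc (300 : ℝ) ≤ 2.7182818283 ^ 5 * 2.0214 := by norm_num
      _ ≤ _ := mul_le_mul h2 h3 (by norm_num) (by positivity)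
  have hD0 : (0 : ℝ) < G.maxDegree := by exact_mod_cast h0
  rcases Nat.eq_zero_or_pos h with hh | hh
  · rw [hh, Nat.cast_zero, div_zero, add_zero, Real.log_one, mul_zero]
    positivity
  have hh0 : (0 : ℝ) < h := by exact_mod_cast hh
  set R : ℝ := (G.maxDegree : ℝ) / h with hRdef
  have hRpos : 0 < R := by positivity
  have hDR : (G.maxDegree : ℝ) = R * h := by
    rw [hRdef]
    field_simp
  by_cases hbig : R < 300
  · have h1 := h5 G h0 q hq
    have h2 : Real.log (1 + R) ≤ Real.log 300 + 1 / 300 := by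
      have h3 : Real.log (1 + R) ≤ Real.log (300 * (1 + 1 / 300)) :=
        Real.log_le_log (by linarith) (by linarith)
      rw [Real.log_mul (by norm_num) (by norm_num)] at h3
      have h4 := Real.log_le_sub_one_of_pos (x := (1 + 1 / 300 : ℝ)) (by norm_num)
      linarith
    have h3 : 0 ≤ Real.log (1 + R) := Real.log_nonneg (by linarith)
    calc ‖q‖ * Real.log (1 + R) ≤ (5 * G.maxDegree) * (Real.log 300 + 1 / 300) :=
          mul_le_mul h1 h2 h3 (by positivity)
      _ ≤ _ := by nlinarith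
  · have hR300 : 300 ≤ R := not_lt.1 hbig
    have hl0 : 0 < Real.log 300 := Real.log_pos (by norm_num)
    have hlR : Real.log 300 ≤ Real.log R := Real.log_le_log (by norm_num) hR300
    have hlR0 : 0 < Real.log R := hl0.trans_le hlR
    have hK : 1 ≤ Real.log R / Real.log 300 := by
      rw [le_div_iff₀ hl0]
      linarith
    have hpow : (300 : ℝ) ^ (Real.log R / Real.log 300) = R := by
      rw [Real.rpow_def_of_pos (by norm_num), mul_div_cancel₀ _ hl0.ne', Real.exp_log hRpos]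
    have h1 : ‖q‖ < G.maxDegree / (Real.log R / Real.log 300) := by
      by_contra hcon
      exact partB hCORE hNUMB G h0 h hub _ hK (by rw [hpow, hDR]) q (not_lt.1 hcon) hq
    rw [div_div_eq_mul_div, lt_div_iff₀ hlR0] at h1
    have h2 : Real.log (1 + R) ≤ 2 * Real.log R := by
      have h3 : Real.log (1 + R) ≤ Real.log (R * R) :=
        Real.log_le_log (by linarith) (by nlinarith)
      rw [Real.log_mul hRpos.ne' hRpos.ne'] at h3
      linarith
    have h3 : ‖q‖ * Real.log (1 + R) ≤ ‖q‖ * (2 * Real.log R) :=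
      mul_le_mul_of_nonneg_left h2 (norm_nonneg _)
    nlinarith

theorem five {V : Type} [Fintype V] [DecidableEq V] (G : SimpleGraph V)
    [DecidableRel G.Adj] (h0 : 0 < G.maxDegree) (q : ℂ) (hq : (chi G).eval q = 0) :
    ‖q‖ ≤ 5 * G.maxDegree := by
  by_contra hcon
  exact five_ne G.maxDegree h0 q (not_le.1 hcon) V G
    (fun u => by rw [nb_card]; exact G.degree_le_maxDegree u) hq

theorem main' (hCORE : S_CORE) (hNUMB : S_NUMB) {V : Type} [Fintype V] (G : SimpleGraph V)
    [DecidableRel G.Adj] (p : Polynomial ℝ)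
    (hp : ∀ n : ℕ, p.eval (n : ℝ) = ((Nat.card (G.Coloring (Fin n)) : ℕ) : ℝ))
    (q : ℂ) (hq0 : q ≠ 0) (hq : Polynomial.aeval q p = 0) :
    ((∀ v : V, 1000 * ((G.neighborFinset v).filter
        (fun w => G.maxDegree < 20 * G.degree w)).card ≤ G.maxDegree) →
      ‖q‖ < (G.maxDegree : ℝ)) ∧
    ∀ h : ℕ, (∀ v : V, ((G.neighborFinset v).filter (fun w => h < G.degree w)).card ≤ h) →
      (∀ K : ℝ, 1 ≤ K → (300 : ℝ) ^ K * (h : ℝ) ≤ (G.maxDegree : ℝ) →
        ‖q‖ < (G.maxDegree : ℝ) / K) ∧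
      ‖q‖ * Real.log (1 + (G.maxDegree : ℝ) / (h : ℝ)) ≤ 29 * (G.maxDegree : ℝ) := by
  classical
  have hpc : p.map (algebraMap ℝ ℂ) = chi G := by
    apply unique V G
    intro n
    have h : ((n : ℕ) : ℂ) = algebraMap ℝ ℂ (n : ℝ) := by simp
    rw [h, Polynomial.eval_map, Polynomial.eval₂_at_apply, hp n]
    simp
  have hchi : (chi G).eval q = 0 := by
    rw [← hpc, Polynomial.eval_map]
    exact hq
  have hpos : 0 < G.maxDegree := by
    rcases Nat.eq_zero_or_pos G.maxDegree with h0 | hpos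
    · exfalso
      refine Pool.Agent.CHR.t_ZERO Pool.Agent.HP.empty (A2.del iso) q hq0 V G (fun u => ?_) hchi
      rw [nb_card]
      have := G.degree_le_maxDegree u
      omega
    · exact hpos
  refine ⟨fun hub => ?_, fun h hub => ⟨fun K hK hR => ?_, ?_⟩⟩
  · by_contra hcon
    exact partA hCORE G hpos hub q (not_lt.1 hcon) hchi
  · by_contra hcon
    exact partB hCORE hNUMB G hpos h hub K hK hR q (not_lt.1 hcon) hchi
  · exact partC five hCORE hNUMB G hpos h hub q hchi

end Pool.Agent.HUBT.Asm
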