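import Pool.Agent.Lib_helper56.HP.A2

/-!
# Chromatic roots of graphs in which the vertices of large degree are sparse: the induction

`x = ‖q‖`, `θ = 1 - 1 / q`, `s = lam / x`.  Every vertex `v` carries a number `κ v` and the weight `s * κ v`.
Claim, by induction on the number of vertices of `L`: `P(L) ≠ 0` and, for `Z` without neighbours of `u`,
`‖aa L u Z q - θ ^ |Z|‖ ≤ κ u (e ^ (s ∑_{z ∈ Z} κ z) - 1)`.
-/

set_option autoImplicit false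

open Finset Polynomial Pool.Agent.HP

namespace Pool.Agent.HUBT

noncomputable section

/-- primitive of `phi` -/
def Phi (c w : ℝ) : ℝ := Real.exp w - w + 2 * c * Real.exp (w / 2)

def phi (c w : ℝ) : ℝ := Real.exp w - 1 + c * Real.exp (w / 2)

/-- the condition on a vertex with `κ v = k`, at most `D` neighbours, of total weight at most `η` -/
def Cond (x lam c k : ℝ) (D : ℕ) (η : ℝ) : Prop :=
  2 ≤ lam * k ∧ ((D : ℝ) ≤ c * k * x ∨ 1 ≤ c * k) ∧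
  ∃ ρ : ℝ, 0 < ρ ∧ ρ ≤ (1 - 1 / x) ^ D - (Phi c η - Phi c 0) / lam ∧
    ∀ w : ℝ, 0 ≤ w → (Phi c η - Phi c 0) * (Real.exp (w / 2) - 1) + (Phi c (η + w) - Phi c η) ≤
      lam * ρ * k * (Real.exp w - 1)

/-- the inductive property -/
def P (q : ℂ) (s : ℝ) {V : Type} [Fintype V] [DecidableEq V] (L : SimpleGraph V) (κ : V → ℝ) : Prop :=
  (chi L).eval q ≠ 0 ∧ ∀ (u : V) (Z : Finset V), u ∉ Z → (∀ z ∈ Z, ¬ L.Adj u z) →
    ‖aa L u Z q - (1 - 1 / q) ^ Z.card‖ ≤ κ u * (Real.exp (s * ∑ z ∈ Z, κ z) - 1)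

end

theorem phi_nonneg {c w : ℝ} (hc : 0 ≤ c) (hw : 0 ≤ w) : 0 ≤ phi c w := by
  unfold phi
  have h1 := Real.add_one_le_exp w
  have h2 := mul_nonneg hc (Real.exp_pos (w / 2)).le
  linarith

theorem Phi_step {c W δ : ℝ} (hc : 0 ≤ c) :
    δ * phi c W ≤ Phi c (W + δ) - Phi c W := by
  unfold phi Phi
  have h1 : Real.exp (W + δ) = Real.exp W * Real.exp δ := Real.exp_add _ _
  have h2 : Real.exp ((W + δ) / 2) = Real.exp (W / 2) * Real.exp (δ / 2) := by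
    rw [← Real.exp_add]
    congr 1
    ring
  have h3 := Real.add_one_le_exp δ
  have h4 := Real.add_one_le_exp (δ / 2)
  have h5 := Real.exp_pos W
  have h6 := Real.exp_pos (W / 2)
  rw [h1, h2]
  have h7 : Real.exp W * (δ + 1) ≤ Real.exp W * Real.exp δ := mul_le_mul_of_nonneg_left h3 h5.le
  have h8 : Real.exp (W / 2) * (δ / 2 + 1) ≤ Real.exp (W / 2) * Real.exp (δ / 2) :=
    mul_le_mul_of_nonneg_left h4 h6.le
  have h9 := mul_le_mul_of_nonneg_left h8 (by linarith : (0 : ℝ) ≤ 2 * c)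
  nlinarith

theorem Phi_mono {c W W' : ℝ} (hc : 0 ≤ c) (hW : 0 ≤ W) (h : W ≤ W') : Phi c W ≤ Phi c W' := by
  have h1 := Phi_step (c := c) (W := W) (δ := W' - W) hc
  have h2 := mul_nonneg (sub_nonneg.2 h) (phi_nonneg (c := c) hc hW)
  have h3 : W + (W' - W) = W' := by ring
  rw [h3] at h1
  linarith

theorem Phi_diff_mono {c a b w : ℝ} (hc : 0 ≤ c) (hab : a ≤ b) (hw : 0 ≤ w) :
    Phi c (a + w) - Phi c a ≤ Phi c (b + w) - Phi c b := by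
  unfold Phi
  have h1 : ∀ t : ℝ, Real.exp (t + w) = Real.exp t * Real.exp w := fun t => Real.exp_add _ _
  have h2 : ∀ t : ℝ, Real.exp ((t + w) / 2) = Real.exp (t / 2) * Real.exp (w / 2) := by
    intro t
    rw [← Real.exp_add]
    congr 1
    ring
  rw [h1, h1, h2, h2]
  have h3 : Real.exp a ≤ Real.exp b := Real.exp_le_exp.2 hab
  have h4 : Real.exp (a / 2) ≤ Real.exp (b / 2) := Real.exp_le_exp.2 (by linarith)
  have h5 : 0 ≤ Real.exp w - 1 := by have := Real.add_one_le_exp w; linarith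
  have h6 : 0 ≤ Real.exp (w / 2) - 1 := by have := Real.add_one_le_exp (w / 2); linarith
  have h7 := mul_le_mul_of_nonneg_right h3 h5
  have h8 := mul_le_mul_of_nonneg_left (mul_le_mul_of_nonneg_right h4 h6) (by linarith : (0:ℝ) ≤ 2 * c)
  nlinarith

/-! ### Powers of `θ` -/

theorem one_sub_pow {q : ℂ} (t : ℕ) :
    ‖(1 : ℂ) - (1 - 1 / q) ^ t‖ ≤ (1 + 1 / ‖q‖) ^ t - 1 := by
  induction t with
  | zero => simp
  | succ t ih =>
    have hθ : ‖(1 : ℂ) - 1 / q‖ ≤ 1 + 1 / ‖q‖ := by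
      calc ‖(1 : ℂ) - 1 / q‖ ≤ ‖(1 : ℂ)‖ + ‖1 / q‖ := norm_sub_le _ _
        _ = 1 + 1 / ‖q‖ := by simp
    have h1 : (1 : ℂ) - (1 - 1 / q) ^ (t + 1) = (1 - (1 - 1 / q) ^ t) + (1 - 1 / q) ^ t * (1 / q) := by
      rw [pow_succ]
      ring
    have h2 : ‖(1 - 1 / q) ^ t * (1 / q)‖ ≤ (1 + 1 / ‖q‖) ^ t * (1 / ‖q‖) := by
      rw [norm_mul, norm_pow, norm_div, norm_one]
      gcongr
    rw [h1, pow_succ]
    calc _ ≤ ‖(1 : ℂ) - (1 - 1 / q) ^ t‖ + ‖(1 - 1 / q) ^ t * (1 / q)‖ := norm_add_le _ _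
      _ ≤ ((1 + 1 / ‖q‖) ^ t - 1) + (1 + 1 / ‖q‖) ^ t * (1 / ‖q‖) := add_le_add ih h2
      _ = _ := by ring

theorem pow_sub_one_le {y : ℝ} (hy : 0 ≤ y) (t : ℕ) : (1 + y) ^ t - 1 ≤ t * y * (1 + y) ^ t := by
  induction t with
  | zero => simp
  | succ t ih =>
    have h1 : 0 ≤ (1 + y) ^ t := by positivity
    push_cast
    rw [pow_succ]
    have h2 : (1 + y) ^ t * (1 + y) - 1 = ((1 + y) ^ t - 1) + y * (1 + y) ^ t := by ring
    rw [h2]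
    have h3 : (t : ℝ) * y * (1 + y) ^ t ≤ (t : ℝ) * y * ((1 + y) ^ t * (1 + y)) := by
      apply mul_le_mul_of_nonneg_left _ (by positivity)
      nlinarith
    have h4 : y * (1 + y) ^ t ≤ y * ((1 + y) ^ t * (1 + y)) := by
      apply mul_le_mul_of_nonneg_left _ hy
      nlinarith
    nlinarith

theorem one_add_pow_le {y w : ℝ} (hy : 0 ≤ y) (b : ℕ) (h : b * y ≤ w) : (1 + y) ^ b ≤ Real.exp w := by
  calc (1 + y) ^ b ≤ (Real.exp y) ^ b := by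
        apply pow_le_pow_left₀ (by positivity)
        have := Real.add_one_le_exp y
        linarith
    _ = Real.exp (b * y) := by rw [← Real.exp_nat_mul]
    _ ≤ Real.exp w := Real.exp_le_exp.2 h

theorem pow_diff {q : ℂ} (a t : ℕ) {w m : ℝ} (hw : ((a + t : ℕ) : ℝ) * (1 / ‖q‖) ≤ w)
    (hm : (t : ℝ) * (1 / ‖q‖) ≤ m) :
    ‖(1 - 1 / q) ^ a - (1 - 1 / q) ^ (a + t)‖ ≤ m * Real.exp w := by
  have hy : 0 ≤ 1 / ‖q‖ := by positivity
  have hθ : ‖(1 : ℂ) - 1 / q‖ ≤ 1 + 1 / ‖q‖ := by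
    calc ‖(1 : ℂ) - 1 / q‖ ≤ ‖(1 : ℂ)‖ + ‖1 / q‖ := norm_sub_le _ _
      _ = 1 + 1 / ‖q‖ := by simp
  have h1 : (1 - 1 / q) ^ a - (1 - 1 / q) ^ (a + t) = (1 - 1 / q) ^ a * (1 - (1 - 1 / q) ^ t) := by
    rw [pow_add]
    ring
  rw [h1, norm_mul, norm_pow]
  calc ‖(1 : ℂ) - 1 / q‖ ^ a * ‖1 - (1 - 1 / q) ^ t‖
      ≤ (1 + 1 / ‖q‖) ^ a * (t * (1 / ‖q‖) * (1 + 1 / ‖q‖) ^ t) := by
        apply mul_le_mul (pow_le_pow_left₀ (norm_nonneg _) hθ _)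
          ((one_sub_pow t).trans (pow_sub_one_le hy t)) (norm_nonneg _) (by positivity)
    _ = (t * (1 / ‖q‖)) * (1 + 1 / ‖q‖) ^ (a + t) := by rw [pow_add]; ring
    _ ≤ m * Real.exp w := by
        apply mul_le_mul hm (one_add_pow_le hy _ hw) (by positivity)
        exact (by positivity : (0:ℝ) ≤ t * (1 / ‖q‖)).trans hm

theorem pow_diff_one {q : ℂ} (a t : ℕ) {w : ℝ} (hw : ((a + t : ℕ) : ℝ) * (1 / ‖q‖) ≤ w) :
    ‖(1 - 1 / q) ^ a - (1 - 1 / q) ^ (a + t)‖ ≤ Real.exp w := by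
  have hy : 0 ≤ 1 / ‖q‖ := by positivity
  have hθ : ‖(1 : ℂ) - 1 / q‖ ≤ 1 + 1 / ‖q‖ := by
    calc ‖(1 : ℂ) - 1 / q‖ ≤ ‖(1 : ℂ)‖ + ‖1 / q‖ := norm_sub_le _ _
      _ = 1 + 1 / ‖q‖ := by simp
  have h1 : (1 - 1 / q) ^ a - (1 - 1 / q) ^ (a + t) = (1 - 1 / q) ^ a * (1 - (1 - 1 / q) ^ t) := by
    rw [pow_add]
    ring
  have h2 : ‖(1 : ℂ) - (1 - 1 / q) ^ t‖ ≤ (1 + 1 / ‖q‖) ^ t := (one_sub_pow t).trans (by linarith)
  rw [h1, norm_mul, norm_pow]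
  calc ‖(1 : ℂ) - 1 / q‖ ^ a * ‖1 - (1 - 1 / q) ^ t‖
      ≤ (1 + 1 / ‖q‖) ^ a * (1 + 1 / ‖q‖) ^ t :=
        mul_le_mul (pow_le_pow_left₀ (norm_nonneg _) hθ _) h2 (norm_nonneg _) (by positivity)
    _ = (1 + 1 / ‖q‖) ^ (a + t) := by rw [pow_add]
    _ ≤ Real.exp w := one_add_pow_le hy _ hw

theorem geom_theta {q : ℂ} (hq : q ≠ 0) (k : ℕ) :
    ∑ j ∈ range k, (1 - 1 / q) ^ j = q * (1 - (1 - 1 / q) ^ k) := by
  induction k with
  | zero => simp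
  | succ k ih =>
    rw [sum_range_succ, ih, pow_succ]
    field_simp
    ring

end Pool.Agent.HUBT
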