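import Pool.Agent.HUBT.St
import Pool.Agent.Lib_helper56.HP.A1
import Pool.Agent.Lib_helper56.HP.A2

/-!
# HubDegrees: the induction (module CORE, helper56)
-/

set_option autoImplicit false

open Finset Polynomial Pool.Agent.HP

namespace Pool.Agent.HUBT

set_option linter.unusedSectionVars false

section
variable {V : Type} [Fintype V] [DecidableEq V]

/-- edges already present do not change `addE` -/
theorem aa_filter (L : SimpleGraph V) [DecidableRel L.Adj] (v : V) (A : Finset V) (q : ℂ) :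
    aa L v A q = aa L v (A.filter fun z => ¬ L.Adj v z) q := by
  have h : addE L v A = addE L v (A.filter fun z => ¬ L.Adj v z) := by
    ext a b
    simp only [addE, mem_filter]
    constructor
    · rintro (h | ⟨h1, h2, h3⟩ | ⟨h1, h2, h3⟩)
      · exact Or.inl h
      · by_cases hh : L.Adj v b
        · left; rw [h1]; exact hh
        · exact Or.inr (Or.inl ⟨h1, ⟨h2, hh⟩, h3⟩)
      · by_cases hh : L.Adj v a
        · left; rw [h1]; exact hh.symm
        · exact Or.inr (Or.inr ⟨h1, ⟨h2, hh⟩, h3⟩)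
    · rintro (h | ⟨h1, h2, h3⟩ | ⟨h1, h2, h3⟩)
      · exact Or.inl h
      · exact Or.inr (Or.inl ⟨h1, h2.1, h3⟩)
      · exact Or.inr (Or.inr ⟨h1, h2.1, h3⟩)
  unfold aa
  rw [h]

/-- the estimate for arbitrary sets -/
theorem gen {q : ℂ} {lam c : ℝ} (hq : 1 < ‖q‖) (hlam : 0 < lam)
    (L : SimpleGraph V) [DecidableRel L.Adj] (κ : V → ℝ) (hP : P q (lam / ‖q‖) L κ)
    (hκ : ∀ v, 2 ≤ lam * κ v) (v : V) (D : ℕ)
    (hD : (univ.filter (fun z => L.Adj v z)).card ≤ D)
    (hDc : (D : ℝ) ≤ c * κ v * ‖q‖ ∨ 1 ≤ c * κ v) (A : Finset V) (hv : v ∉ A) :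
    ‖aa L v A q - (1 - 1 / q) ^ A.card‖ ≤ κ v * phi c (lam / ‖q‖ * ∑ z ∈ A, κ z) := by
  have hx : 0 < ‖q‖ := by linarith
  have hκ0 : ∀ v, 0 < κ v := by
    intro v
    have h := hκ v
    by_contra hh
    have := mul_nonpos_of_nonneg_of_nonpos hlam.le (not_lt.1 hh)
    linarith
  set s := lam / ‖q‖ with hs
  have hs0 : 0 < s := div_pos hlam hx
  set A' := A.filter fun z => ¬ L.Adj v z with hA'
  set T := A.filter fun z => L.Adj v z with hT
  set W := s * ∑ z ∈ A, κ z with hW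
  have hcard : A.card = A'.card + T.card := by
    rw [hA', hT, add_comm]
    exact (Finset.card_filter_add_card_filter_not (fun z => L.Adj v z)).symm
  have hTD : T.card ≤ D := by
    refine le_trans (Finset.card_le_card ?_) hD
    intro z hz
    rw [hT, mem_filter] at hz
    exact mem_filter.2 ⟨mem_univ z, hz.2⟩
  -- the weight of `A` is at least `2 |A| / x`
  have hAW : (A.card : ℝ) * (1 / ‖q‖) ≤ W / 2 := by
    have h1 : (A.card : ℝ) * (2 / lam) ≤ ∑ z ∈ A, κ z := by
      have : ∑ z ∈ A, (2 / lam : ℝ) ≤ ∑ z ∈ A, κ z := by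
        apply sum_le_sum
        intro z _
        rw [div_le_iff₀ hlam, mul_comm]
        exact hκ z
      simpa using this
    have h2 := mul_le_mul_of_nonneg_left h1 hs0.le
    have h3 : s * ((A.card : ℝ) * (2 / lam)) = 2 * ((A.card : ℝ) * (1 / ‖q‖)) := by
      rw [hs]
      field_simp
    rw [h3] at h2
    rw [hW]
    linarith
  have hWnn : 0 ≤ W := by
    have : 0 ≤ (A.card : ℝ) * (1 / ‖q‖) := by positivity
    linarith
  -- first part
  have hle : s * ∑ z ∈ A', κ z ≤ W := by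
    rw [hW]
    apply mul_le_mul_of_nonneg_left _ hs0.le
    apply sum_le_sum_of_subset_of_nonneg (filter_subset _ _)
    intro z _ _
    exact (hκ0 z).le
  have h1 : ‖aa L v A' q - (1 - 1 / q) ^ A'.card‖ ≤ κ v * (Real.exp W - 1) := by
    refine (hP.2 v A' ?_ ?_).trans ?_
    · intro h
      exact hv (mem_filter.1 h).1
    · intro z hz
      exact (mem_filter.1 hz).2
    · apply mul_le_mul_of_nonneg_left _ (hκ0 v).le
      have := Real.exp_le_exp.2 hle
      linarith
  -- second part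
  have h2 : ‖(1 - 1 / q) ^ A'.card - (1 - 1 / q) ^ A.card‖ ≤ c * κ v * Real.exp (W / 2) := by
    rw [hcard]
    have hw : ((A'.card + T.card : ℕ) : ℝ) * (1 / ‖q‖) ≤ W / 2 := by rw [← hcard]; exact hAW
    rcases hDc with hDc | hDc
    · refine pow_diff A'.card T.card hw ?_
      have h3 : (T.card : ℝ) ≤ D := by exact_mod_cast hTD
      have h4 : (T.card : ℝ) ≤ c * κ v * ‖q‖ := h3.trans hDc
      rw [mul_one_div, div_le_iff₀ hx]
      exact h4
    · refine (pow_diff_one A'.card T.card hw).trans ?_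
      have := mul_le_mul_of_nonneg_right hDc (Real.exp_pos (W / 2)).le
      linarith
  rw [aa_filter L v A q, ← hA']
  calc ‖aa L v A' q - (1 - 1 / q) ^ A.card‖
      = ‖(aa L v A' q - (1 - 1 / q) ^ A'.card) + ((1 - 1 / q) ^ A'.card - (1 - 1 / q) ^ A.card)‖ := by
        congr 1; ring
    _ ≤ κ v * (Real.exp W - 1) + c * κ v * Real.exp (W / 2) := (norm_add_le _ _).trans (add_le_add h1 h2)
    _ = κ v * phi c W := by unfold phi; ring

theorem rr_insert {q : ℂ} (L : SimpleGraph V) (A : Finset V) (b : V) (hb : b ∉ A) :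
    rr L (insert b A) q = rr L A q - aa L b A q := by
  unfold rr aa
  rw [A2.insert evalNat V L A b hb, Polynomial.eval_add]
  ring

theorem rr_empty {q : ℂ} (L : SimpleGraph V) (h0 : (chi L).eval q ≠ 0) : rr L ∅ q = q := by
  unfold rr
  rw [(empty V L).1, Polynomial.eval_mul, Polynomial.eval_X, mul_div_assoc, div_self h0, mul_one]

/-- differences of `rr` -/
theorem diff {q : ℂ} {lam c : ℝ} (hq : 1 < ‖q‖) (hlam : 0 < lam) (hc : 0 ≤ c)
    (L : SimpleGraph V) [DecidableRel L.Adj] (κ : V → ℝ) (hP : P q (lam / ‖q‖) L κ)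
    (hκ : ∀ v, 2 ≤ lam * κ v) (D : V → ℕ)
    (hD : ∀ v, (univ.filter (fun z => L.Adj v z)).card ≤ D v)
    (hDc : ∀ v, (D v : ℝ) ≤ c * κ v * ‖q‖ ∨ 1 ≤ c * κ v)
    (N Y : Finset V) (hNY : Disjoint N Y) :
    ‖rr L (N ∪ Y) q - (rr L N q - ∑ j ∈ range Y.card, (1 - 1 / q) ^ (N.card + j))‖ ≤
      (Phi c (lam / ‖q‖ * ∑ z ∈ N, κ z + lam / ‖q‖ * ∑ z ∈ Y, κ z) -
        Phi c (lam / ‖q‖ * ∑ z ∈ N, κ z)) / (lam / ‖q‖) := by
  have hx : 0 < ‖q‖ := by linarith
  have hs0 : 0 < lam / ‖q‖ := div_pos hlam hx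
  induction Y using Finset.induction_on with
  | empty => simp
  | insert y Y hy ih =>
    rw [Finset.disjoint_insert_right] at hNY
    have ih := ih hNY.2
    have hyn : y ∉ N ∪ Y := by
      rw [mem_union]
      rintro (h | h)
      · exact hNY.1 h
      · exact hy h
    have h1 : N ∪ insert y Y = insert y (N ∪ Y) := Finset.union_insert _ _ _
    have hcu : (N ∪ Y).card = N.card + Y.card := Finset.card_union_of_disjoint hNY.2
    have hg := gen hq hlam L κ hP hκ y (D y) (hD y) (hDc y) (N ∪ Y) hyn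
    rw [hcu, sum_union hNY.2, mul_add] at hg
    rw [h1, rr_insert L (N ∪ Y) y hyn, card_insert_of_notMem hy, sum_range_succ, sum_insert hy]
    set W := lam / ‖q‖ * ∑ z ∈ N, κ z + lam / ‖q‖ * ∑ z ∈ Y, κ z with hW
    set W0 := lam / ‖q‖ * ∑ z ∈ N, κ z with hW0
    have hstep := Phi_step (c := c) (W := W) (δ := lam / ‖q‖ * κ y) hc
    have h2 : W0 + lam / ‖q‖ * (κ y + ∑ z ∈ Y, κ z) = W + lam / ‖q‖ * κ y := by
      rw [hW]; ring
    rw [h2]
    have h3 : κ y * phi c W ≤ (Phi c (W + lam / ‖q‖ * κ y) - Phi c W) / (lam / ‖q‖) := by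
      rw [le_div_iff₀ hs0]
      calc κ y * phi c W * (lam / ‖q‖) = lam / ‖q‖ * κ y * phi c W := by ring
        _ ≤ _ := hstep
    calc ‖rr L (N ∪ Y) q - aa L y (N ∪ Y) q -
          (rr L N q - (∑ j ∈ range Y.card, (1 - 1 / q) ^ (N.card + j) + (1 - 1 / q) ^ (N.card + Y.card)))‖
        = ‖(rr L (N ∪ Y) q - (rr L N q - ∑ j ∈ range Y.card, (1 - 1 / q) ^ (N.card + j))) -
            (aa L y (N ∪ Y) q - (1 - 1 / q) ^ (N.card + Y.card))‖ := by congr 1; ring
      _ ≤ (Phi c W - Phi c W0) / (lam / ‖q‖) + κ y * phi c W :=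
          (norm_sub_le _ _).trans (add_le_add ih hg)
      _ ≤ (Phi c W - Phi c W0) / (lam / ‖q‖) +
            (Phi c (W + lam / ‖q‖ * κ y) - Phi c W) / (lam / ‖q‖) := by linarith
      _ = _ := by ring

/-! ### Neighbourhoods in `G` and in `G - u` -/

theorem nb_map (L : SimpleGraph V) [DecidableRel L.Adj] (u : V) :
    (nb L u).map (Function.Embedding.subtype _) = univ.filter (fun z => L.Adj u z) := by
  ext z
  simp only [mem_map, mem_filter, mem_univ, true_and, Function.Embedding.coe_subtype]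
  constructor
  · rintro ⟨w, hw, rfl⟩
    exact (A2.mem_nb L u w).1 hw
  · intro h
    exact ⟨⟨z, fun e => by subst e; exact SimpleGraph.irrefl L h⟩, (A2.mem_nb L u _).2 h, rfl⟩

theorem nb_card (L : SimpleGraph V) [DecidableRel L.Adj] (u : V) :
    (nb L u).card = (univ.filter (fun z => L.Adj u z)).card := by
  rw [← nb_map, card_map]

theorem nb_sum (L : SimpleGraph V) [DecidableRel L.Adj] (u : V) (κ : V → ℝ) :
    ∑ z ∈ nb L u, κ z.1 = ∑ z ∈ univ.filter (fun z => L.Adj u z), κ z := by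
  rw [← nb_map, sum_map]
  rfl

theorem res_map (u : V) (Z : Finset V) (hu : u ∉ Z) :
    (res u Z).map (Function.Embedding.subtype _) = Z := by
  ext z
  simp only [res, mem_map, mem_subtype, Function.Embedding.coe_subtype]
  constructor
  · rintro ⟨w, hw, rfl⟩
    exact hw
  · intro h
    exact ⟨⟨z, fun e => by subst e; exact hu h⟩, h, rfl⟩

theorem res_card (u : V) (Z : Finset V) (hu : u ∉ Z) : (res u Z).card = Z.card := by
  conv_rhs => rw [← res_map u Z hu]
  rw [card_map]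

theorem res_sum (u : V) (Z : Finset V) (hu : u ∉ Z) (κ : V → ℝ) :
    ∑ z ∈ res u Z, κ z.1 = ∑ z ∈ Z, κ z := by
  conv_rhs => rw [← res_map u Z hu]
  rw [sum_map]
  rfl

theorem del_subset (L : SimpleGraph V) [DecidableRel L.Adj] (u : V)
    [DecidableRel (del L u).Adj] (w : {v : V // v ≠ u}) :
    (univ.filter (fun z => (del L u).Adj w z)).map (Function.Embedding.subtype _) ⊆
      univ.filter (fun z => L.Adj w.1 z) := by
  intro z hz
  simp only [mem_map, mem_filter, mem_univ, true_and, Function.Embedding.coe_subtype] at hz ⊢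
  obtain ⟨t, ht, rfl⟩ := hz
  exact ht

end

/-- the estimate of one ratio -/
theorem ratio {q r rW : ℂ} {lam c κ0 ρ η wN wZ : ℝ} {k b D : ℕ} (hq : 1 < ‖q‖) (hlam : 0 < lam)
    (hc : 0 ≤ c) (hκ0 : 0 < κ0) (hρ : 0 < ρ) (hρ2 : ρ ≤ (1 - 1 / ‖q‖) ^ D - (Phi c η - Phi c 0) / lam)
    (hkD : k ≤ D) (hwN : 0 ≤ wN) (hwNη : wN ≤ η) (hwZ : (b : ℝ) * (1 / ‖q‖) ≤ wZ / 2)
    (hmain : ∀ w : ℝ, 0 ≤ w → (Phi c η - Phi c 0) * (Real.exp (w / 2) - 1) + (Phi c (η + w) - Phi c η) ≤
      lam * ρ * κ0 * (Real.exp w - 1))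
    (hr : ‖r - q * (1 - 1 / q) ^ k‖ ≤ (Phi c wN - Phi c 0) / (lam / ‖q‖))
    (hW : ‖rW - (r - q * (1 - 1 / q) ^ k * (1 - (1 - 1 / q) ^ b))‖ ≤
      (Phi c (wN + wZ) - Phi c wN) / (lam / ‖q‖)) :
    ‖q‖ * ρ ≤ ‖r‖ ∧ ‖rW / r - (1 - 1 / q) ^ b‖ ≤ κ0 * (Real.exp wZ - 1) := by
  have hx : 0 < ‖q‖ := by linarith
  have hs0 : 0 < lam / ‖q‖ := div_pos hlam hx
  have hwZ0 : 0 ≤ wZ := by
    have : 0 ≤ (b : ℝ) * (1 / ‖q‖) := by positivity
    linarith
  have hS : Phi c wN - Phi c 0 ≤ Phi c η - Phi c 0 := by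
    have := Phi_mono (c := c) hc hwN hwNη
    linarith
  have h1x : 1 / ‖q‖ ≤ 1 := by rw [div_le_one hx]; exact hq.le
  have h1x0 : 0 ≤ 1 / ‖q‖ := by positivity
  -- lower bound for `r`
  have hθ : 1 - 1 / ‖q‖ ≤ ‖(1 : ℂ) - 1 / q‖ := by
    have := norm_sub_norm_le (1 : ℂ) (1 / q)
    rw [norm_one, norm_div, norm_one] at this
    exact this
  have h2 : (1 - 1 / ‖q‖) ^ D ≤ ‖(1 - 1 / q) ^ k‖ := by
    rw [norm_pow]
    calc (1 - 1 / ‖q‖) ^ D ≤ (1 - 1 / ‖q‖) ^ k :=
          pow_le_pow_of_le_one (by linarith) (by linarith) hkD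
      _ ≤ _ := pow_le_pow_left₀ (by linarith) hθ _
  have h3 : ‖q‖ * ((1 - 1 / ‖q‖) ^ D) ≤ ‖q * (1 - 1 / q) ^ k‖ := by
    rw [norm_mul]
    exact mul_le_mul_of_nonneg_left h2 hx.le
  have h4 : (Phi c wN - Phi c 0) / (lam / ‖q‖) ≤ ‖q‖ * ((Phi c η - Phi c 0) / lam) := by
    rw [div_div_eq_mul_div, mul_comm, mul_div_assoc]
    apply mul_le_mul_of_nonneg_left _ hx.le
    exact (div_le_div_iff_of_pos_right hlam).2 hS
  have h5 : ‖q‖ * ρ ≤ ‖r‖ := by
    have h6 : ‖q * (1 - 1 / q) ^ k‖ - ‖r - q * (1 - 1 / q) ^ k‖ ≤ ‖r‖ := by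
      have h8 : q * (1 - 1 / q) ^ k = r - (r - q * (1 - 1 / q) ^ k) := by ring
      have h9 : ‖q * (1 - 1 / q) ^ k‖ ≤ ‖r‖ + ‖r - q * (1 - 1 / q) ^ k‖ := by
        conv_lhs => rw [h8]
        exact norm_sub_le _ _
      linarith
    have h7 := mul_le_mul_of_nonneg_left hρ2 hx.le
    rw [mul_sub] at h7
    linarith
  refine ⟨h5, ?_⟩
  have hr0 : 0 < ‖r‖ := lt_of_lt_of_le (mul_pos hx hρ) h5
  have hrne : r ≠ 0 := norm_pos_iff.1 hr0
  have h6 : rW / r - (1 - 1 / q) ^ b =
      ((r - q * (1 - 1 / q) ^ k) * (1 - (1 - 1 / q) ^ b) +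
        (rW - (r - q * (1 - 1 / q) ^ k * (1 - (1 - 1 / q) ^ b)))) / r := by
    field_simp
    ring
  rw [h6, norm_div, div_le_iff₀ hr0]
  have h7 : ‖(1 : ℂ) - (1 - 1 / q) ^ b‖ ≤ Real.exp (wZ / 2) - 1 := by
    refine (one_sub_pow b).trans ?_
    have := one_add_pow_le (y := 1 / ‖q‖) (by positivity) b hwZ
    linarith
  have h8 : 0 ≤ Real.exp (wZ / 2) - 1 := (norm_nonneg _).trans h7
  have h9 : 0 ≤ Real.exp wZ - 1 := by have := Real.add_one_le_exp wZ; linarith
  calc ‖(r - q * (1 - 1 / q) ^ k) * (1 - (1 - 1 / q) ^ b) +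
        (rW - (r - q * (1 - 1 / q) ^ k * (1 - (1 - 1 / q) ^ b)))‖
      ≤ (Phi c wN - Phi c 0) / (lam / ‖q‖) * (Real.exp (wZ / 2) - 1) +
          (Phi c (wN + wZ) - Phi c wN) / (lam / ‖q‖) := by
        refine (norm_add_le _ _).trans (add_le_add ?_ hW)
        rw [norm_mul]
        exact mul_le_mul hr h7 (norm_nonneg _) ((norm_nonneg _).trans hr)
    _ = ((Phi c wN - Phi c 0) * (Real.exp (wZ / 2) - 1) + (Phi c (wN + wZ) - Phi c wN)) /
          (lam / ‖q‖) := by ring
    _ ≤ ((Phi c η - Phi c 0) * (Real.exp (wZ / 2) - 1) + (Phi c (η + wZ) - Phi c η)) /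
          (lam / ‖q‖) := by
        apply (div_le_div_iff_of_pos_right hs0).2
        have h10 := mul_le_mul_of_nonneg_right hS h8
        have h11 := Phi_diff_mono (c := c) hc hwNη hwZ0
        linarith
    _ ≤ (lam * ρ * κ0 * (Real.exp wZ - 1)) / (lam / ‖q‖) :=
        (div_le_div_iff_of_pos_right hs0).2 (hmain wZ hwZ0)
    _ = κ0 * (Real.exp wZ - 1) * (‖q‖ * ρ) := by field_simp
    _ ≤ κ0 * (Real.exp wZ - 1) * ‖r‖ :=
        mul_le_mul_of_nonneg_left h5 (mul_nonneg hκ0.le h9)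

theorem main (q : ℂ) (lam c : ℝ) (hq : 1 < ‖q‖) (hlam : 0 < lam) (hc : 0 ≤ c) (n : ℕ) :
    ∀ (V : Type) [Fintype V] [DecidableEq V] (L : SimpleGraph V) [DecidableRel L.Adj] (κ : V → ℝ)
      (D : V → ℕ) (η : V → ℝ), Fintype.card V = n →
      (∀ v, (univ.filter (fun z => L.Adj v z)).card ≤ D v) →
      (∀ v, lam / ‖q‖ * ∑ z ∈ univ.filter (fun z => L.Adj v z), κ z ≤ η v) →
      (∀ v, Cond ‖q‖ lam c (κ v) (D v) (η v)) → P q (lam / ‖q‖) L κ := by
  have hx : 0 < ‖q‖ := by linarith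
  have hq0 : q ≠ 0 := norm_pos_iff.1 hx
  have hs0 : 0 < lam / ‖q‖ := div_pos hlam hx
  induction n with
  | zero =>
    intro V _ _ L _ κ D η hn _ _ _
    have hV := Fintype.card_eq_zero_iff.1 hn
    refine ⟨?_, fun u => (hV.false u).elim⟩
    rw [(empty V L).2 hn]
    simp
  | succ n ih =>
    intro V _ _ L _ κ D η hn hD hη hC
    have hκ : ∀ v, 2 ≤ lam * κ v := fun v => (hC v).1
    have hκ0 : ∀ v, 0 < κ v := by
      intro v
      have h := hκ v
      by_contra hh
      have := mul_nonpos_of_nonneg_of_nonpos hlam.le (not_lt.1 hh)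
      linarith
    -- the step at a vertex
    have key : ∀ u : V, ((chi (del L u)).eval q ≠ 0 ∧ rr (del L u) (nb L u) q ≠ 0) ∧
        ∀ Z : Finset V, u ∉ Z → (∀ z ∈ Z, ¬ L.Adj u z) →
          ‖rr (del L u) (nb L u ∪ res u Z) q / rr (del L u) (nb L u) q - (1 - 1 / q) ^ Z.card‖ ≤
            κ u * (Real.exp (lam / ‖q‖ * ∑ z ∈ Z, κ z) - 1) := by
      intro u
      have : DecidableRel (del L u).Adj := Classical.decRel _
      have hcard : Fintype.card {v : V // v ≠ u} = n := by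
        have := Fintype.card_subtype_compl (fun v : V => v = u)
        simp only [Fintype.card_subtype_eq] at this
        have h2 : Fintype.card {v : V // v ≠ u} = Fintype.card V - 1 := this
        omega
      have hD' : ∀ w : {v : V // v ≠ u}, (univ.filter (fun z => (del L u).Adj w z)).card ≤ D w.1 := by
        intro w
        have h := Finset.card_le_card (del_subset L u w)
        rw [card_map] at h
        exact h.trans (hD w.1)
      have hη' : ∀ w : {v : V // v ≠ u}, lam / ‖q‖ * ∑ z ∈ univ.filter (fun z => (del L u).Adj w z),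
          κ z.1 ≤ η w.1 := by
        intro w
        refine le_trans ?_ (hη w.1)
        apply mul_le_mul_of_nonneg_left _ hs0.le
        have h := sum_le_sum_of_subset_of_nonneg (f := κ) (del_subset L u w)
          (fun z _ _ => (hκ0 z).le)
        rw [sum_map] at h
        exact h
      have hP : P q (lam / ‖q‖) (del L u) (fun w => κ w.1) :=
        ih {v : V // v ≠ u} (del L u) (fun w => κ w.1) (fun w => D w.1) (fun w => η w.1) hcard
          hD' hη' (fun w => hC w.1)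
      have hκ' : ∀ w : {v : V // v ≠ u}, 2 ≤ lam * κ w.1 := fun w => hκ w.1
      have hDc' : ∀ w : {v : V // v ≠ u}, (D w.1 : ℝ) ≤ c * κ w.1 * ‖q‖ ∨ 1 ≤ c * κ w.1 :=
        fun w => (hC w.1).2.1
      obtain ⟨hC1, hC2, ρ, hρ, hρ2, hmain⟩ := hC u
      -- `r`
      have d1 := diff hq hlam hc (del L u) (fun w => κ w.1) hP hκ' (fun w => D w.1) hD' hDc'
        ∅ (nb L u) (disjoint_empty_left _)
      rw [empty_union, rr_empty (del L u) hP.1, sum_empty, mul_zero, zero_add, card_empty] at d1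
      simp only [zero_add] at d1
      rw [geom_theta hq0] at d1
      have hwN : lam / ‖q‖ * ∑ z ∈ nb L u, κ z.1 ≤ η u := by
        rw [nb_sum]
        exact hη u
      have hwN0 : 0 ≤ lam / ‖q‖ * ∑ z ∈ nb L u, κ z.1 :=
        mul_nonneg hs0.le (sum_nonneg fun z _ => (hκ0 z.1).le)
      have hkD : (nb L u).card ≤ D u := by rw [nb_card]; exact hD u
      have hr : ‖rr (del L u) (nb L u) q - q * (1 - 1 / q) ^ (nb L u).card‖ ≤
          (Phi c (lam / ‖q‖ * ∑ z ∈ nb L u, κ z.1) - Phi c 0) / (lam / ‖q‖) := by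
        have h1 : rr (del L u) (nb L u) q - q * (1 - 1 / q) ^ (nb L u).card =
            rr (del L u) (nb L u) q - (q - q * (1 - (1 - 1 / q) ^ (nb L u).card)) := by ring
        rw [h1]
        exact d1
      have step : ∀ Z : Finset V, u ∉ Z → (∀ z ∈ Z, ¬ L.Adj u z) →
          ‖q‖ * ρ ≤ ‖rr (del L u) (nb L u) q‖ ∧
          ‖rr (del L u) (nb L u ∪ res u Z) q / rr (del L u) (nb L u) q - (1 - 1 / q) ^ Z.card‖ ≤
            κ u * (Real.exp (lam / ‖q‖ * ∑ z ∈ Z, κ z) - 1) := by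
        intro Z hu hZ
        have hdis : Disjoint (nb L u) (res u Z) := by
          rw [Finset.disjoint_left]
          intro w hw hw'
          have h1 := (A2.mem_nb L u w).1 hw
          have h2 : w.1 ∈ Z := by
            unfold res at hw'
            exact Finset.mem_subtype.1 hw'
          exact hZ w.1 h2 h1
        have d2 := diff hq hlam hc (del L u) (fun w => κ w.1) hP hκ' (fun w => D w.1) hD' hDc'
          (nb L u) (res u Z) hdis
        rw [res_card u Z hu, res_sum u Z hu κ] at d2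
        have hgeo : ∑ j ∈ range Z.card, (1 - 1 / q) ^ ((nb L u).card + j) =
            q * (1 - 1 / q) ^ (nb L u).card * (1 - (1 - 1 / q) ^ Z.card) := by
          have h1 : ∑ j ∈ range Z.card, (1 - 1 / q) ^ ((nb L u).card + j) =
              (1 - 1 / q) ^ (nb L u).card * ∑ j ∈ range Z.card, (1 - 1 / q) ^ j := by
            rw [mul_sum]
            apply sum_congr rfl
            intro j _
            rw [pow_add]
          rw [h1, geom_theta hq0]
          ring
        rw [hgeo] at d2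
        have hwZ : (Z.card : ℝ) * (1 / ‖q‖) ≤ (lam / ‖q‖ * ∑ z ∈ Z, κ z) / 2 := by
          have h1 : (Z.card : ℝ) * (2 / lam) ≤ ∑ z ∈ Z, κ z := by
            have : ∑ z ∈ Z, (2 / lam : ℝ) ≤ ∑ z ∈ Z, κ z := by
              apply sum_le_sum
              intro z _
              rw [div_le_iff₀ hlam, mul_comm]
              exact hκ z
            simpa using this
          have h2 := mul_le_mul_of_nonneg_left h1 hs0.le
          have h3 : lam / ‖q‖ * ((Z.card : ℝ) * (2 / lam)) = 2 * ((Z.card : ℝ) * (1 / ‖q‖)) := by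
            field_simp
          rw [h3] at h2
          linarith
        exact ratio hq hlam hc (hκ0 u) hρ hρ2 hkD hwN0 hwN hwZ hmain hr d2
      refine ⟨⟨hP.1, ?_⟩, fun Z hu hZ => (step Z hu hZ).2⟩
      have h1 := (step ∅ (notMem_empty _) (fun z hz => absurd hz (notMem_empty _))).1
      exact norm_pos_iff.1 (lt_of_lt_of_le (mul_pos hx hρ) h1)
    have hchi : ∀ u : V, (chi L).eval q = rr (del L u) (nb L u) q * (chi (del L u)).eval q := by
      intro u
      unfold rr
      rw [div_mul_cancel₀ _ (key u).1.1, A2.del iso V L u]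
    refine ⟨?_, ?_⟩
    · have hne : Nonempty V := Fintype.card_pos_iff.1 (by omega)
      obtain ⟨u⟩ := hne
      rw [hchi u]
      exact mul_ne_zero (key u).1.2 (key u).1.1
    · intro u Z hu hZ
      have haa : aa L u Z q = rr (del L u) (nb L u ∪ res u Z) q / rr (del L u) (nb L u) q := by
        have h0 := (key u).1.1
        have h1 := (key u).1.2
        unfold aa
        rw [hchi u, ← A2.delE iso V L u Z]
        unfold rr at h1 ⊢
        field_simp
      rw [haa]
      exact (key u).2 Z hu hZ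

theorem t_CORE : S_CORE := by
  intro q lam c hq hlam hc V _ _ L _ κ D η hD hη hC
  exact (main q lam c hq hlam hc _ V L κ D η rfl hD hη hC).1

end Pool.Agent.HUBT
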