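import Pool.Agent.HUBT.St

/-! HubDegrees, NUMB: the numbers for `K ≥ 1`. -/

set_option autoImplicit false

open Finset Polynomial Pool.Agent.HP

namespace Pool.Agent.HUBT

theorem numb_e3 : Real.exp 3 ≤ 201 / 10 := by
  have h1 : Real.exp 3 = Real.exp 1 ^ 3 := by
    rw [← Real.exp_nat_mul]
    norm_num
  have h2 := Real.exp_one_lt_d9
  have h3 := Real.exp_pos 1
  rw [h1]
  calc Real.exp 1 ^ 3 ≤ (2.7182818286 : ℝ) ^ 3 := pow_le_pow_left₀ h3.le h2.le 3
    _ ≤ 201 / 10 := by norm_num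

theorem numb_e4 : Real.exp 4 ≤ 300 := by
  have h1 : Real.exp 4 = Real.exp 1 ^ 4 := by
    rw [← Real.exp_nat_mul]
    norm_num
  have h2 := Real.exp_one_lt_d9
  have h3 := Real.exp_pos 1
  rw [h1]
  calc Real.exp 1 ^ 4 ≤ (2.7182818286 : ℝ) ^ 4 := pow_le_pow_left₀ h3.le h2.le 4
    _ ≤ 300 := by norm_num

theorem numb_e03 : Real.exp (3 / 10) ≤ 135 / 100 := by
  have h := Real.exp_bound' (x := 3 / 10) (by norm_num) (by norm_num) (n := 5) (by norm_num)
  refine h.trans ?_
  norm_num [Finset.sum_range_succ, Nat.factorial]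

theorem numb_e015 : Real.exp (3 / 20) ≤ 1162 / 1000 := by
  have h := Real.exp_bound' (x := 3 / 20) (by norm_num) (by norm_num) (n := 5) (by norm_num)
  refine h.trans ?_
  norm_num [Finset.sum_range_succ, Nat.factorial]

/-- the basic numbers -/
theorem numb_base (K : ℝ) (hK : 1 ≤ K) :
    K * (2 + 7 / 2 * Real.exp (3 * K) * (5 / 4)) / (300 : ℝ) ^ K ≤ 3 / 10 ∧
    K * (7 / 2 * Real.exp (3 * K)) ≤ 8 / 5 * (300 : ℝ) ^ K ∧
    300 * K ^ 2 ≤ (300 : ℝ) ^ K ∧ 0 < (300 : ℝ) ^ K := by
  set A : ℝ := Real.exp (K - 1) with hA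
  have hAK : K ≤ A := by
    have := Real.add_one_le_exp (K - 1)
    linarith
  have hA1 : 1 ≤ A := hK.trans hAK
  have hR0 : 0 < (300 : ℝ) ^ K := Real.rpow_pos_of_pos (by norm_num) K
  have hlog : 4 ≤ Real.log 300 := by
    rw [Real.le_log_iff_exp_le (by norm_num)]
    exact numb_e4
  have hR : 300 * A ^ 4 ≤ (300 : ℝ) ^ K := by
    have h1 : (300 : ℝ) ^ K = 300 * (300 : ℝ) ^ (K - 1) := by
      rw [← Real.rpow_one_add' (by norm_num) (by linarith)]
      congr 1
      ring
    have h2 : (300 : ℝ) ^ (K - 1) = Real.exp (Real.log 300 * (K - 1)) :=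
      Real.rpow_def_of_pos (by norm_num) _
    have h3 : A ^ 4 = Real.exp (4 * (K - 1)) := by
      rw [hA, ← Real.exp_nat_mul]
      norm_num
    rw [h1, h2, h3]
    apply mul_le_mul_of_nonneg_left _ (by norm_num)
    apply Real.exp_le_exp.2
    exact mul_le_mul_of_nonneg_right hlog (by linarith)
  have hE : Real.exp (3 * K) = Real.exp 3 * A ^ 3 := by
    rw [hA, ← Real.exp_nat_mul, ← Real.exp_add]
    congr 1
    push_cast
    ring
  have he3 := numb_e3
  have hA3 : 0 < A ^ 3 := by positivity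
  have hA13 : 1 ≤ A ^ 3 := one_le_pow₀ hA1
  have hE1 : Real.exp (3 * K) ≤ 201 / 10 * A ^ 3 := by
    rw [hE]
    exact mul_le_mul_of_nonneg_right he3 hA3.le
  refine ⟨?_, ?_, ?_, hR0⟩
  · rw [div_le_iff₀ hR0]
    have h1 : K * (2 + 7 / 2 * Real.exp (3 * K) * (5 / 4)) ≤ A * (90 * A ^ 3) := by
      apply mul_le_mul hAK _ (by positivity) (by positivity)
      nlinarith
    nlinarith
  · have h1 : K * (7 / 2 * Real.exp (3 * K)) ≤ A * (90 * A ^ 3) := by
      apply mul_le_mul hAK _ (by positivity) (by positivity)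
      nlinarith
    nlinarith [pow_pos (lt_of_lt_of_le one_pos hA1) 4]
  · have h1 : K ^ 2 ≤ A ^ 2 := pow_le_pow_left₀ (by linarith) hAK 2
    have h2 : A ^ 2 ≤ A ^ 4 := pow_le_pow_right₀ hA1 (by norm_num)
    linarith

theorem numb_Phi {η t : ℝ} (E F : ℝ) (hη : t ≤ η) (hE : Real.exp η ≤ E)
    (hF : Real.exp (η / 2) ≤ F) :
    Phi (4 / 5) η - Phi (4 / 5) 0 ≤ E - 1 - t + 8 / 5 * (F - 1) := by
  unfold Phi
  rw [zero_div, Real.exp_zero]
  linarith

theorem t_NUMB : S_SMALL → S_LARGE → S_NUMB := by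
  intro hSM hLA x K hK hRx
  obtain ⟨hη, hlam, hR2, hR0⟩ := numb_base K hK
  set R : ℝ := (300 : ℝ) ^ K with hRdef
  set η : ℝ := K * (2 + 7 / 2 * Real.exp (3 * K) * (5 / 4)) / R with hηdef
  have hK0 : 0 < K := by linarith
  have hE3 : 0 < Real.exp (3 * K) := Real.exp_pos _
  have hE3' : 20 ≤ Real.exp (3 * K) := by
    have h1 : Real.exp 3 ≤ Real.exp (3 * K) := Real.exp_le_exp.2 (by linarith)
    have h2 : Real.exp 3 = Real.exp 1 ^ 3 := by
      rw [← Real.exp_nat_mul]
      norm_num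
    have h3 := Real.exp_one_gt_d9
    have h4 : (2.7182818283 : ℝ) ^ 3 ≤ Real.exp 1 ^ 3 :=
      pow_le_pow_left₀ (by norm_num) h3.le 3
    have h5 : (20 : ℝ) ≤ (2.7182818283 : ℝ) ^ 3 := by norm_num
    linarith
  set lam : ℝ := 7 / 2 * Real.exp (3 * K) with hlamdef
  have hlam0 : 0 < lam := by positivity
  have hlam70 : 70 ≤ lam := by rw [hlamdef]; linarith
  have hη0 : 0 ≤ η := by rw [hηdef]; positivity
  have hx : 300 * K ≤ x := by
    have h1 : K * (300 * K) ≤ K * x := by nlinarith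
    exact le_of_mul_le_mul_left h1 hK0
  have hx300 : 300 ≤ x := by linarith
  have hx0 : 0 < x := by linarith
  have he03 : Real.exp η ≤ 135 / 100 := (Real.exp_le_exp.2 hη).trans numb_e03
  have he015 : Real.exp (η / 2) ≤ 1162 / 1000 :=
    (Real.exp_le_exp.2 (by linarith)).trans numb_e015
  refine ⟨?_, ?_⟩
  · intro h hh
    have hS := numb_Phi (135 / 100) (1162 / 1000) hη0 he03 he015
    set S : ℝ := Phi (4 / 5) η - Phi (4 / 5) 0 with hSdef
    have hhx : (h : ℝ) ≤ x / 300 := by
      have h1 : (h : ℝ) * (300 * K ^ 2) ≤ K * x := (mul_le_mul_of_nonneg_left hR2 (Nat.cast_nonneg h)).trans hh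
      have h2 : K * ((h : ℝ) * 300) ≤ K * x := by
        have h3 : (h : ℝ) * (300 * K) ≤ (h : ℝ) * (300 * K ^ 2) := by
          apply mul_le_mul_of_nonneg_left _ (Nat.cast_nonneg h)
          nlinarith
        nlinarith
      have h4 := le_of_mul_le_mul_left h2 hK0
      linarith
    have hpow : 299 / 300 ≤ (1 - 1 / x) ^ h := by
      have h1 := one_add_mul_le_pow (a := -(1 / x)) (by
        have : 1 / x ≤ 1 := by
          rw [div_le_one hx0]
          linarith
        linarith) h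
      have h2 : (h : ℝ) * (1 / x) ≤ 1 / 300 := by
        rw [mul_one_div, div_le_iff₀ hx0]
        linarith
      have h3 : (1 : ℝ) + -(1 / x) = 1 - 1 / x := by ring
      rw [h3] at h1
      linarith
    have hSlam : S / lam ≤ 1 / 100 := by
      rw [div_le_iff₀ hlam0]
      linarith
    refine ⟨by rw [mul_div_cancel₀ _ hlam0.ne'], Or.inl ?_, (1 - 1 / x) ^ h - S / lam, ?_, le_rfl, ?_⟩
    · -- h ≤ 4/5 * (2/lam) * x
      have h1 : (h : ℝ) * lam ≤ 8 / 5 * x := by
        have h2 : (h : ℝ) * (K * lam) ≤ (h : ℝ) * (8 / 5 * R) :=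
          mul_le_mul_of_nonneg_left hlam (Nat.cast_nonneg h)
        have h3 : K * ((h : ℝ) * lam) ≤ K * (8 / 5 * x) := by nlinarith
        exact le_of_mul_le_mul_left h3 hK0
      have h2 : 4 / 5 * (2 / lam) * x = (8 / 5 * x) / lam := by ring
      rw [h2, le_div_iff₀ hlam0]
      exact h1
    · linarith
    · intro w hw
      have h1 := hSM (4 / 5) η ((1 - 1 / x) ^ h - S / lam) (by norm_num) (by linarith)
        (by linarith) w hw
      have h2 : lam * ((1 - 1 / x) ^ h - S / lam) * (2 / lam) =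
          2 * ((1 - 1 / x) ^ h - S / lam) := by
        field_simp
      rw [h2]
      exact h1
  · intro D hD
    have hηh : (0 : ℝ) ≤ 2 * K + η := by linarith
    set y : ℝ := Real.exp K with hy
    have hy0 : 0 < y := Real.exp_pos _
    have hy2 : Real.exp (2 * K) = y ^ 2 := by
      rw [hy, ← Real.exp_nat_mul]
      norm_num
    have hEh : Real.exp (2 * K + η) ≤ 135 / 100 * y ^ 2 := by
      rw [Real.exp_add, hy2, mul_comm]
      exact mul_le_mul_of_nonneg_right he03 (by positivity)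
    have hFh : Real.exp ((2 * K + η) / 2) ≤ 1162 / 1000 * y := by
      have h1 : (2 * K + η) / 2 = K + η / 2 := by ring
      rw [h1, Real.exp_add, mul_comm]
      exact mul_le_mul_of_nonneg_right he015 hy0.le
    have hS := numb_Phi (135 / 100 * y ^ 2) (1162 / 1000 * y)
      (by linarith : 2 * K ≤ 2 * K + η) hEh hFh
    set S : ℝ := Phi (4 / 5) (2 * K + η) - Phi (4 / 5) 0 with hSdef
    have hS0 : 0 ≤ S := by
      have := Phi_mono (c := 4 / 5) (by norm_num) le_rfl hηh
      rw [hSdef]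
      linarith
    have hpow : Real.exp (-K) * (298 / 299) ≤ (1 - 1 / x) ^ D := by
      have hx1 : 0 < x - 1 := by linarith
      have h1 : Real.exp (-(1 / (x - 1))) ≤ 1 - 1 / x := by
        rw [Real.exp_neg]
        have h2 : x / (x - 1) ≤ Real.exp (1 / (x - 1)) := by
          have h3 := Real.add_one_le_exp (1 / (x - 1))
          have h4 : x / (x - 1) = 1 / (x - 1) + 1 := by
            field_simp
            ring
          rw [h4]
          exact h3
        have h5 : (1 : ℝ) - 1 / x = (x / (x - 1))⁻¹ := by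
          rw [inv_div]
          field_simp
        rw [h5]
        exact inv_anti₀ (by positivity) h2
      have h6 : Real.exp (-K - 1 / 299) ≤ Real.exp (-(1 / (x - 1))) ^ D := by
        rw [← Real.exp_nat_mul]
        apply Real.exp_le_exp.2
        have h7 : (D : ℝ) * (1 / (x - 1)) ≤ K + 1 / 299 := by
          rw [mul_one_div, div_le_iff₀ hx1]
          nlinarith
        linarith
      have h8 : Real.exp (-K) * (298 / 299) ≤ Real.exp (-K - 1 / 299) := by
        rw [sub_eq_add_neg (-K), Real.exp_add]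
        apply mul_le_mul_of_nonneg_left _ (Real.exp_pos _).le
        have := Real.add_one_le_exp (-(1 / 299 : ℝ))
        linarith
      exact h8.trans (h6.trans (pow_le_pow_left₀ (Real.exp_pos _).le h1 D))
    have hlamp : 7 / 2 * y ^ 2 * (298 / 299) ≤ lam * (1 - 1 / x) ^ D := by
      have h1 : lam * (Real.exp (-K) * (298 / 299)) = 7 / 2 * y ^ 2 * (298 / 299) := by
        rw [hlamdef, ← hy2]
        have h2 : Real.exp (2 * K) = Real.exp (3 * K) * Real.exp (-K) := by
          rw [← Real.exp_add]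
          congr 1
          ring
        rw [h2]
        ring
      rw [← h1]
      exact mul_le_mul_of_nonneg_left hpow hlam0.le
    have hkey : (S + 2 * (4 / 5) * Real.exp ((2 * K + η) / 2)) / 2 + Real.exp (2 * K + η) ≤
        lam * ((1 - 1 / x) ^ D - S / lam) * (5 / 4) := by
      have h1 : lam * ((1 - 1 / x) ^ D - S / lam) = lam * (1 - 1 / x) ^ D - S := by
        rw [mul_sub, mul_div_cancel₀ _ hlam0.ne']
      rw [h1]
      have h2 : 0 ≤ 6478 / 10000 * y ^ 2 - 41832 / 10000 * y + 805 / 100 := by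
        nlinarith [sq_nonneg (y - 32 / 10)]
      nlinarith
    have hpos : 0 < lam * ((1 - 1 / x) ^ D - S / lam) * (5 / 4) := by
      refine lt_of_lt_of_le ?_ hkey
      have h1 := Real.exp_pos (2 * K + η)
      have h2 := Real.exp_pos ((2 * K + η) / 2)
      linarith
    have hρ : 0 < (1 - 1 / x) ^ D - S / lam := by
      by_contra hcon
      have h1 := mul_nonneg hlam0.le (neg_nonneg.2 (not_lt.1 hcon))
      linarith
    refine ⟨by linarith, Or.inr (by norm_num), (1 - 1 / x) ^ D - S / lam, hρ, le_rfl, ?_⟩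
    intro w hw
    exact hLA (4 / 5) (2 * K + η) _ (by norm_num) hηh hkey w hw

end Pool.Agent.HUBT
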