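import Pool.Agent.HUBT.St

set_option autoImplicit false

open Finset Polynomial Pool.Agent.HP

namespace Pool.Agent.HUBT

theorem Phi_diff (c η w : ℝ) : Phi c (η + w) - Phi c η =
    Real.exp η * (Real.exp (w / 2) ^ 2 - 1) - w +
      2 * c * Real.exp (η / 2) * (Real.exp (w / 2) - 1) := by
  unfold Phi
  have h1 : Real.exp (η + w) = Real.exp η * Real.exp (w / 2) ^ 2 := by
    rw [← Real.exp_nat_mul, ← Real.exp_add]
    congr 1
    push_cast
    ring
  have h2 : Real.exp ((η + w) / 2) = Real.exp (η / 2) * Real.exp (w / 2) := by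
    rw [← Real.exp_add]
    congr 1
    ring
  rw [h1, h2]
  ring

theorem exp_sq (w : ℝ) : Real.exp w = Real.exp (w / 2) ^ 2 := by
  rw [← Real.exp_nat_mul]
  congr 1
  push_cast
  ring

theorem t_SMALL : S_SMALL := by
  intro c η ρ hc hρ hS w hw
  rw [Phi_diff, exp_sq w]
  have hv1 : 1 ≤ Real.exp (w / 2) := Real.one_le_exp (by linarith)
  have hlog : 1 - w / 2 ≤ 1 / Real.exp (w / 2) := by
    have := Real.add_one_le_exp (-(w / 2))
    rw [Real.exp_neg] at this
    rw [one_div]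
    linarith
  generalize Real.exp (w / 2) = v at hv1 hlog ⊢
  generalize Real.exp (η / 2) = e2 at hS ⊢
  generalize Phi c η - Phi c 0 = S at hS ⊢
  generalize Real.exp η = E at hρ ⊢
  have hv0 : 0 < v := by linarith
  have h1 : 2 * (v - 1) / v ≤ w := by
    have h2 : 2 * (v - 1) / v = 2 - 2 * (1 / v) := by
      field_simp
    rw [h2]
    linarith
  have h3 : (v - 1) * (S + 2 * c * e2) ≤ (v - 1) * (5 / 2) :=
    mul_le_mul_of_nonneg_left hS (by linarith)
  have h4 : (v - 1) * (5 / 2) ≤ (v ^ 2 - 1) * (1 / 2) + 2 * (v - 1) / v := by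
    have h5 : (v ^ 2 - 1) * (1 / 2) + 2 * (v - 1) / v - (v - 1) * (5 / 2) =
        (v - 1) * (v - 2) ^ 2 / (2 * v) := by
      field_simp
      ring
    have h6 : 0 ≤ (v - 1) * (v - 2) ^ 2 / (2 * v) :=
      div_nonneg (mul_nonneg (by linarith) (sq_nonneg _)) (by linarith)
    linarith
  have h7 : (v ^ 2 - 1) * (E + 1 / 2) ≤ (v ^ 2 - 1) * (2 * ρ) :=
    mul_le_mul_of_nonneg_left hρ (by nlinarith)
  nlinarith

theorem t_LARGE : S_LARGE := by
  intro c η B hc hη hB w hw
  rw [Phi_diff, exp_sq w]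
  have hv1 : 1 ≤ Real.exp (w / 2) := Real.one_le_exp (by linarith)
  have hS0 : 0 ≤ Phi c η - Phi c 0 := by
    have := Phi_mono (c := c) hc le_rfl hη
    linarith
  have he2 : 0 < Real.exp (η / 2) := Real.exp_pos _
  generalize Real.exp (w / 2) = v at hv1 ⊢
  generalize Real.exp (η / 2) = e2 at hB he2 ⊢
  generalize Phi c η - Phi c 0 = S at hB hS0 ⊢
  generalize Real.exp η = E at hB ⊢
  have h0 : 0 ≤ S + 2 * c * e2 := by positivity
  have h1 : (v ^ 2 - 1) * ((S + 2 * c * e2) / 2 + E) ≤ (v ^ 2 - 1) * B :=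
    mul_le_mul_of_nonneg_left hB (by nlinarith)
  have h2 : 0 ≤ (v - 1) ^ 2 * (S + 2 * c * e2) := mul_nonneg (sq_nonneg _) h0
  nlinarith

end Pool.Agent.HUBT
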