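import Pool.Agent.HUBT.Asm
import Pool.Agent.HUBT.MCORE
import Pool.Agent.HUBT.MNUMB
import Pool.Agent.HUBT.MSL

/-!
# HubDegrees: the theorem
-/

set_option autoImplicit false

namespace Pool.Agent.HUBT

theorem hub_main {V : Type} [Fintype V] (G : SimpleGraph V) [DecidableRel G.Adj]
    (p : Polynomial ℝ)
    (hp : ∀ n : ℕ, p.eval (n : ℝ) = ((Nat.card (G.Coloring (Fin n)) : ℕ) : ℝ))
    (q : ℂ) (hq0 : q ≠ 0) (hq : Polynomial.aeval q p = 0) :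
    ((∀ v : V, 1000 * ((G.neighborFinset v).filter
        (fun w => G.maxDegree < 20 * G.degree w)).card ≤ G.maxDegree) →
      ‖q‖ < (G.maxDegree : ℝ)) ∧
    ∀ h : ℕ, (∀ v : V, ((G.neighborFinset v).filter (fun w => h < G.degree w)).card ≤ h) →
      (∀ K : ℝ, 1 ≤ K → (300 : ℝ) ^ K * (h : ℝ) ≤ (G.maxDegree : ℝ) →
        ‖q‖ < (G.maxDegree : ℝ) / K) ∧
      ‖q‖ * Real.log (1 + (G.maxDegree : ℝ) / (h : ℝ)) ≤ 29 * (G.maxDegree : ℝ) :=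
  Asm.main' t_CORE (t_NUMB t_SMALL t_LARGE) G p hp q hq0 hq

end Pool.Agent.HUBT
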