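import Pool.Agent.HUBT.MSL

set_option autoImplicit false

open Finset Polynomial Pool.Agent.HP

namespace Pool.Agent.HUBT

theorem exp_a : Real.exp (2295 / 10000 : ℝ) ≤ 1.26 := by
  have h := Real.exp_bound' (x := (2295 / 10000 : ℝ)) (by norm_num) (by norm_num) (n := 4) (by norm_num)
  refine h.trans ?_
  simp only [Finset.sum_range_succ, Finset.sum_range_zero, Nat.factorial]
  norm_num

theorem exp_b : Real.exp (2295 / 10000 / 2 : ℝ) ≤ 1.122 := by
  have h := Real.exp_bound' (x := (2295 / 10000 / 2 : ℝ)) (by norm_num) (by norm_num) (n := 4)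
    (by norm_num)
  refine h.trans ?_
  simp only [Finset.sum_range_succ, Finset.sum_range_zero, Nat.factorial]
  norm_num

theorem exp_c : Real.exp (1295 / 10000 : ℝ) ≤ 1.1383 := by
  have h := Real.exp_bound' (x := (1295 / 10000 : ℝ)) (by norm_num) (by norm_num) (n := 4)
    (by norm_num)
  refine h.trans ?_
  simp only [Finset.sum_range_succ, Finset.sum_range_zero, Nat.factorial]
  norm_num

theorem exp_d : Real.exp (1295 / 10000 / 2 : ℝ) ≤ 1.0669 := by
  have h := Real.exp_bound' (x := (1295 / 10000 / 2 : ℝ)) (by norm_num) (by norm_num) (n := 4)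
    (by norm_num)
  refine h.trans ?_
  simp only [Finset.sum_range_succ, Finset.sum_range_zero, Nat.factorial]
  norm_num

theorem exp_e : Real.exp (21295 / 10000 : ℝ) ≤ 8.4115 := by
  have h : Real.exp (21295 / 10000 : ℝ) = Real.exp 1 ^ 2 * Real.exp (1295 / 10000 : ℝ) := by
    rw [← Real.exp_nat_mul, ← Real.exp_add]
    congr 1
    norm_num
  have h1 := Real.exp_one_lt_d9
  have h2 := exp_c
  have h3 : Real.exp 1 ^ 2 ≤ 7.3891 := by
    have h0 := Real.exp_pos 1
    nlinarith
  rw [h]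
  have h4 := Real.exp_pos (1295 / 10000 : ℝ)
  have h5 := Real.exp_pos 1
  calc Real.exp 1 ^ 2 * Real.exp (1295 / 10000 : ℝ) ≤ 7.3891 * 1.1383 := by gcongr
    _ ≤ _ := by norm_num

theorem exp_f : Real.exp (21295 / 10000 / 2 : ℝ) ≤ 2.9008 := by
  have h : Real.exp (21295 / 10000 / 2 : ℝ) = Real.exp 1 * Real.exp (1295 / 10000 / 2 : ℝ) := by
    rw [← Real.exp_add]
    congr 1
    norm_num
  have h1 := Real.exp_one_lt_d9
  have h2 := exp_d
  rw [h]
  calc Real.exp 1 * Real.exp (1295 / 10000 / 2 : ℝ) ≤ 2.7182818286 * 1.0669 := by gcongr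
    _ ≤ _ := by norm_num

theorem bern (x : ℝ) (hx : 1 ≤ x) (d : ℕ) : 1 - d / x ≤ (1 - 1 / x) ^ d := by
  have hx0 : 0 < x := by linarith
  have h1 : 1 / x ≤ 1 := by
    rw [div_le_one hx0]
    exact hx
  have := one_add_mul_le_pow (a := -(1 / x)) (by linarith) d
  calc 1 - d / x = 1 + d * (-(1 / x)) := by ring
    _ ≤ (1 + -(1 / x)) ^ d := this
    _ = _ := by ring

theorem low (x : ℝ) (hx : 1 < x) (D : ℕ) : Real.exp (-(D / (x - 1))) ≤ (1 - 1 / x) ^ D := by
  have hx0 : 0 < x := by linarith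
  have hx1 : 0 < x - 1 := by linarith
  have h1 : Real.exp (-(1 / (x - 1))) ≤ 1 - 1 / x := by
    have h2 := Real.add_one_le_exp (1 / (x - 1))
    rw [Real.exp_neg]
    have h3 : (1 - 1 / x) = (1 / (x - 1) + 1)⁻¹ := by
      field_simp
      ring
    rw [h3]
    refine inv_anti₀ (by positivity) h2
  calc Real.exp (-(D / (x - 1))) = Real.exp (-(1 / (x - 1))) ^ D := by
        rw [← Real.exp_nat_mul]
        congr 1
        ring
    _ ≤ _ := pow_le_pow_left₀ (Real.exp_pos _).le h1 D

theorem t_NUMA : S_NUMA := by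
  intro x hx
  have hx0 : 0 < x := by linarith
  have hPhi : ∀ c η : ℝ, Phi c η - Phi c 0 =
      Real.exp η - 1 - η + 2 * c * (Real.exp (η / 2) - 1) := by
    intro c η
    unfold Phi
    rw [zero_div, Real.exp_zero]
    ring
  refine ⟨fun d hd => ?_, fun D hD => ?_⟩
  · have ha := exp_a
    have hb := exp_b
    have h1 : 19 / 20 ≤ (1 - 1 / x) ^ d := by
      refine le_trans ?_ (bern x (by linarith) d)
      have : (d : ℝ) / x ≤ 1 / 20 := by
        rw [div_le_div_iff₀ hx0 (by norm_num)]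
        linarith
      linarith
    refine ⟨by norm_num, Or.inl (by linarith), 9 / 10, by norm_num, ?_, ?_⟩
    · rw [hPhi]
      have : (Real.exp (2295 / 10000 : ℝ) - 1 - 2295 / 10000 +
          2 * (37 / 40) * (Real.exp (2295 / 10000 / 2 : ℝ) - 1)) / 37 ≤ 1 / 20 := by
        rw [div_le_iff₀ (by norm_num)]
        linarith
      linarith
    · intro w hw
      have h2 := t_SMALL (37 / 40) (2295 / 10000) (9 / 10) (by norm_num) (by linarith)
        (by rw [hPhi]; linarith) w hw
      linarith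
  · have ha := exp_e
    have hb := exp_f
    have h1 : (367 / 1000 : ℝ) ≤ (1 - 1 / x) ^ D := by
      refine le_trans ?_ (low x (by linarith) D)
      have h2 : (D : ℝ) / (x - 1) ≤ 1 + 1 / 999 := by
        rw [div_le_iff₀ (by linarith)]
        linarith
      have h3 : Real.exp (-(1 + 1 / 999 : ℝ)) ≤ Real.exp (-(D / (x - 1))) :=
        Real.exp_le_exp.2 (by linarith)
      refine le_trans ?_ h3
      have h4 : Real.exp (-(1 + 1 / 999 : ℝ)) = (Real.exp 1)⁻¹ * Real.exp (-(1 / 999) : ℝ) := by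
        rw [← Real.exp_neg, ← Real.exp_add]
        congr 1
        ring
      have h5 := Real.add_one_le_exp (-(1 / 999) : ℝ)
      have h6 : (1 / 2.7182818286 : ℝ) ≤ (Real.exp 1)⁻¹ := by
        rw [one_div]
        exact inv_anti₀ (Real.exp_pos 1) Real.exp_one_lt_d9.le
      rw [h4]
      calc (367 / 1000 : ℝ) ≤ 1 / 2.7182818286 * (-(1 / 999) + 1) := by norm_num
        _ ≤ _ := mul_le_mul h6 h5 (by norm_num) (inv_nonneg.2 (Real.exp_pos 1).le)
    refine ⟨by norm_num, Or.inr (by norm_num), 128 / 1000, by norm_num, ?_, ?_⟩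
    · rw [hPhi]
      have : (Real.exp (21295 / 10000 : ℝ) - 1 - 21295 / 10000 +
          2 * (37 / 40) * (Real.exp (21295 / 10000 / 2 : ℝ) - 1)) / 37 ≤ 239 / 1000 := by
        rw [div_le_iff₀ (by norm_num)]
        linarith
      linarith
    · intro w hw
      have h2 := t_LARGE (37 / 40) (21295 / 10000) (37 * (128 / 1000) * (7 / 2)) (by norm_num)
        (by norm_num) (by rw [hPhi]; linarith) w hw
      exact h2

end Pool.Agent.HUBT
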