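import Pool.Agent.HUBT.MCORE
import Pool.Agent.HUBT.MNUMA
import Pool.Agent.CHR.MZERO

/-!
# HubDegrees: two thresholds (helper56)
-/

set_option autoImplicit false

open Finset Polynomial Pool.Agent.HP

namespace Pool.Agent.HUBT

/-- graphs without edges -/
theorem edgeless (V : Type) [Fintype V] [DecidableEq V] (L : SimpleGraph V) [DecidableRel L.Adj]
    (h : ∀ v, (univ.filter (fun z => L.Adj v z)).card = 0) (q : ℂ) (hq : q ≠ 0) :
    (chi L).eval q ≠ 0 := by
  refine CHR.t_ZERO empty (A2.del iso) q hq V L ?_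
  intro u
  rw [nb_card]
  exact h u

/-- the sum of `κ` over the neighbours -/
theorem sum_kappa (V : Type) [Fintype V] [DecidableEq V] (L : SimpleGraph V) [DecidableRel L.Adj]
    (H : V → Prop) [DecidablePred H] (a b : ℝ) (ha : 0 ≤ a) (v : V) :
    ∑ z ∈ univ.filter (fun z => L.Adj v z), (if H z then b else a) ≤
      (univ.filter (fun z => L.Adj v z)).card * a +
        (univ.filter (fun z => L.Adj v z ∧ H z)).card * b := by
  have h1 : ∑ z ∈ univ.filter (fun z => L.Adj v z), (if H z then b else a) ≤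
      ∑ z ∈ univ.filter (fun z => L.Adj v z), (a + if H z then b else 0) := by
    apply sum_le_sum
    intro z _
    split_ifs
    · linarith
    · linarith
  refine h1.trans (le_of_eq ?_)
  rw [sum_add_distrib, sum_const, nsmul_eq_mul, ← sum_filter, sum_const, nsmul_eq_mul,
    filter_filter]

/-- **(a')**: if every vertex has at most `Δ / 1000` neighbours of degree larger than `Δ / 20`, then
there is no chromatic root `q ≠ 0` with `‖q‖ ≥ Δ` -/
theorem finalA (V : Type) [Fintype V] [DecidableEq V] (L : SimpleGraph V) [DecidableRel L.Adj]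
    (Δ : ℕ) (hΔ : ∀ v, (univ.filter (fun z => L.Adj v z)).card ≤ Δ)
    (hmax : Δ = 0 ∨ ∃ v, (univ.filter (fun z => L.Adj v z)).card = Δ)
    (hub : ∀ v, 1000 * (univ.filter (fun z => L.Adj v z ∧
      Δ < 20 * (univ.filter (fun y => L.Adj z y)).card)).card ≤ Δ)
    (q : ℂ) (hq0 : q ≠ 0) (hq : (Δ : ℝ) ≤ ‖q‖) : (chi L).eval q ≠ 0 := by
  rcases Nat.eq_zero_or_pos Δ with h0 | hpos
  · subst h0
    exact edgeless V L (fun v => Nat.le_zero.1 (hΔ v)) q hq0
  -- `Δ ≥ 1000`
  have h1000 : 1000 ≤ Δ := by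
    obtain ⟨v, hv⟩ : ∃ v, (univ.filter (fun z => L.Adj v z)).card = Δ := by
      rcases hmax with h | h
      · omega
      · exact h
    have hne : (univ.filter (fun z => L.Adj v z)).Nonempty := by
      rw [← card_pos, hv]
      exact hpos
    obtain ⟨w, hw⟩ := hne
    have hvw : L.Adj v w := (mem_filter.1 hw).2
    have h1 : 1 ≤ (univ.filter (fun z => L.Adj w z ∧
        Δ < 20 * (univ.filter (fun y => L.Adj z y)).card)).card := by
      rw [Nat.one_le_iff_ne_zero, ← Nat.pos_iff_ne_zero, card_pos]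
      refine ⟨v, mem_filter.2 ⟨mem_univ v, hvw.symm, ?_⟩⟩
      rw [hv]
      omega
    have := hub w
    omega
  have hx : (1000 : ℝ) ≤ ‖q‖ := by
    have : (1000 : ℝ) ≤ (Δ : ℝ) := by exact_mod_cast h1000
    linarith
  have hx0 : 0 < ‖q‖ := by linarith
  obtain ⟨hsmall, hlarge⟩ := t_NUMA ‖q‖ hx
  set dg : V → ℕ := fun v => (univ.filter (fun z => L.Adj v z)).card with hdg
  have hub' : ∀ v, 1000 * (univ.filter (fun z => L.Adj v z ∧ Δ < 20 * dg z)).card ≤ Δ := hub
  have hΔ' : ∀ v, dg v ≤ Δ := hΔ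
  refine t_CORE q 37 (37 / 40) (by linarith) (by norm_num) (by norm_num) V L
    (fun v => if Δ < 20 * dg v then 7 / 2 else 2 / 37)
    (fun v => if Δ < 20 * dg v then Δ else Δ / 20)
    (fun v => if Δ < 20 * dg v then 21295 / 10000 else 2295 / 10000) ?_ ?_ ?_
  · intro v
    change dg v ≤ _
    split_ifs with h
    · exact hΔ' v
    · rw [Nat.le_div_iff_mul_le (by norm_num)]
      omega
  · intro v
    have h1 := sum_kappa V L (fun z => Δ < 20 * dg z) (2 / 37) (7 / 2) (by norm_num) v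
    have h2 : (37 : ℝ) / ‖q‖ * ∑ z ∈ univ.filter (fun z => L.Adj v z),
        (if Δ < 20 * dg z then (7 / 2 : ℝ) else 2 / 37) ≤
        37 / ‖q‖ * ((dg v : ℝ) * (2 / 37) +
          ((univ.filter (fun z => L.Adj v z ∧ Δ < 20 * dg z)).card : ℝ) * (7 / 2)) :=
      mul_le_mul_of_nonneg_left h1 (by positivity)
    refine h2.trans ?_
    have h3 : ((univ.filter (fun z => L.Adj v z ∧ Δ < 20 * dg z)).card : ℝ) ≤ ‖q‖ / 1000 := by
      have h4 : (1000 : ℝ) * ((univ.filter (fun z => L.Adj v z ∧ Δ < 20 * dg z)).card : ℝ) ≤ Δ := by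
        exact_mod_cast hub' v
      linarith
    rw [div_mul_eq_mul_div, div_le_iff₀ hx0]
    split_ifs with h
    · have h5 : (dg v : ℝ) ≤ Δ := by exact_mod_cast hΔ' v
      linarith
    · have h5 : (20 : ℝ) * (dg v : ℝ) ≤ Δ := by exact_mod_cast (by omega : 20 * dg v ≤ Δ)
      linarith
  · intro v
    split_ifs with h
    · exact hlarge Δ hq
    · apply hsmall
      have h5 : 20 * (Δ / 20) ≤ Δ := by omega
      have h6 : (20 : ℝ) * ((Δ / 20 : ℕ) : ℝ) ≤ Δ := by exact_mod_cast h5
      linarith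

end Pool.Agent.HUBT
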