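import Pool.Agent.HUBT.FinalA
import Pool.Agent.HUBT.MNUMB

/-!
# HubDegrees: the local H-index (helper56)
-/

set_option autoImplicit false

open Finset Polynomial Pool.Agent.HP

namespace Pool.Agent.HUBT

/-- **(b)**: if every vertex has at most `h` neighbours of degree larger than `h` and `300 ^ K * h ≤ Δ`, where `Δ` bounds
the degrees, then there is no chromatic root `q ≠ 0` with `K * ‖q‖ ≥ Δ` -/
theorem finalB (V : Type) [Fintype V] [DecidableEq V] (L : SimpleGraph V) [DecidableRel L.Adj]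
    (Δ : ℕ) (hΔ : ∀ v, (univ.filter (fun z => L.Adj v z)).card ≤ Δ) (h : ℕ)
    (hub : ∀ v, (univ.filter (fun z => L.Adj v z ∧
      h < (univ.filter (fun y => L.Adj z y)).card)).card ≤ h)
    (K : ℝ) (hK : 1 ≤ K) (hR : (300 : ℝ) ^ K * h ≤ Δ)
    (q : ℂ) (hq0 : q ≠ 0) (hq : (Δ : ℝ) ≤ K * ‖q‖) : (chi L).eval q ≠ 0 := by
  rcases Nat.eq_zero_or_pos h with h0 | hpos
  · subst h0
    refine edgeless V L ?_ q hq0
    intro v
    by_contra hne
    have hne' : (univ.filter (fun z => L.Adj v z)).Nonempty := by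
      rw [← card_pos]
      omega
    obtain ⟨w, hw⟩ := hne'
    have hvw : L.Adj v w := (mem_filter.1 hw).2
    have h1 : 1 ≤ (univ.filter (fun z => L.Adj v z ∧
        0 < (univ.filter (fun y => L.Adj z y)).card)).card := by
      rw [Nat.one_le_iff_ne_zero, ← Nat.pos_iff_ne_zero, card_pos]
      refine ⟨w, mem_filter.2 ⟨mem_univ w, hvw, ?_⟩⟩
      rw [card_pos]
      exact ⟨v, mem_filter.2 ⟨mem_univ v, hvw.symm⟩⟩
    have := hub v
    omega
  have hR0 : 0 < (300 : ℝ) ^ K := Real.rpow_pos_of_pos (by norm_num) K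
  have hR1 : (300 : ℝ) ^ K ≤ K * ‖q‖ := by
    have h1 : (1 : ℝ) ≤ (h : ℝ) := by exact_mod_cast hpos
    have h2 : (300 : ℝ) ^ K * 1 ≤ (300 : ℝ) ^ K * h := mul_le_mul_of_nonneg_left h1 hR0.le
    linarith
  have hhR : (h : ℝ) * (300 : ℝ) ^ K ≤ K * ‖q‖ := by linarith
  have hR300 : (300 : ℝ) * K ≤ (300 : ℝ) ^ K := by
    have h1 := (numb_base K hK).2.2.1
    nlinarith
  have hx : (300 : ℝ) ≤ ‖q‖ := by
    by_contra hc
    push Not at hc
    have : K * ‖q‖ < K * 300 := mul_lt_mul_of_pos_left hc (by linarith)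
    linarith
  have hx0 : 0 < ‖q‖ := by linarith
  obtain ⟨hsmall, hlarge⟩ := t_NUMB t_SMALL t_LARGE ‖q‖ K hK hR1
  set lam : ℝ := 7 / 2 * Real.exp (3 * K) with hlam
  have hlam0 : 0 < lam := by positivity
  set dg : V → ℕ := fun v => (univ.filter (fun z => L.Adj v z)).card with hdg
  have hub' : ∀ v, (univ.filter (fun z => L.Adj v z ∧ h < dg z)).card ≤ h := hub
  have hΔ' : ∀ v, dg v ≤ Δ := hΔ
  have hhx : (h : ℝ) / ‖q‖ ≤ K / (300 : ℝ) ^ K := by
    rw [div_le_div_iff₀ hx0 hR0]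
    exact hhR
  refine t_CORE q lam (4 / 5) (by linarith) hlam0 (by norm_num) V L
    (fun v => if h < dg v then 5 / 4 else 2 / lam)
    (fun v => if h < dg v then Δ else h)
    (fun v => if h < dg v then 2 * K + K * (2 + lam * (5 / 4)) / (300 : ℝ) ^ K
      else K * (2 + lam * (5 / 4)) / (300 : ℝ) ^ K) ?_ ?_ ?_
  · intro v
    change dg v ≤ _
    split_ifs with hv
    · exact hΔ' v
    · omega
  · intro v
    have h1 := sum_kappa V L (fun z => h < dg z) (2 / lam) (5 / 4) (by positivity) v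
    have h2 : lam / ‖q‖ * ∑ z ∈ univ.filter (fun z => L.Adj v z),
        (if h < dg z then (5 / 4 : ℝ) else 2 / lam) ≤
        lam / ‖q‖ * ((dg v : ℝ) * (2 / lam) +
          ((univ.filter (fun z => L.Adj v z ∧ h < dg z)).card : ℝ) * (5 / 4)) :=
      mul_le_mul_of_nonneg_left h1 (by positivity)
    refine h2.trans ?_
    have h3 : ((univ.filter (fun z => L.Adj v z ∧ h < dg z)).card : ℝ) ≤ h := by
      exact_mod_cast hub' v
    have h4 : lam / ‖q‖ * ((dg v : ℝ) * (2 / lam) +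
          ((univ.filter (fun z => L.Adj v z ∧ h < dg z)).card : ℝ) * (5 / 4)) ≤
        lam / ‖q‖ * ((dg v : ℝ) * (2 / lam) + (h : ℝ) * (5 / 4)) := by
      apply mul_le_mul_of_nonneg_left _ (by positivity)
      linarith
    have h5 : lam / ‖q‖ * ((dg v : ℝ) * (2 / lam) + (h : ℝ) * (5 / 4)) =
        2 * ((dg v : ℝ) / ‖q‖) + lam * (5 / 4) * ((h : ℝ) / ‖q‖) := by
      field_simp
    have h6 : lam * (5 / 4) * ((h : ℝ) / ‖q‖) ≤ lam * (5 / 4) * (K / (300 : ℝ) ^ K) :=
      mul_le_mul_of_nonneg_left hhx (by positivity)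
    have h7 : K * (2 + lam * (5 / 4)) / (300 : ℝ) ^ K =
        2 * (K / (300 : ℝ) ^ K) + lam * (5 / 4) * (K / (300 : ℝ) ^ K) := by ring
    have h8 : 0 ≤ K / (300 : ℝ) ^ K := by positivity
    rw [h5] at h4
    refine h4.trans ?_
    split_ifs with hv
    · have h9 : (dg v : ℝ) / ‖q‖ ≤ K := by
        rw [div_le_iff₀ hx0]
        have : (dg v : ℝ) ≤ Δ := by exact_mod_cast hΔ' v
        linarith
      rw [h7]
      linarith
    · have h9 : (dg v : ℝ) / ‖q‖ ≤ (h : ℝ) / ‖q‖ := by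
        apply div_le_div_of_nonneg_right _ hx0.le
        exact_mod_cast (by omega : dg v ≤ h)
      rw [h7]
      linarith
  · intro v
    split_ifs with hv
    · exact hlarge Δ hq
    · exact hsmall h hhR

end Pool.Agent.HUBT
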