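import Pool.Agent.HUBT.Core

/-!
# HubDegrees: statements

`S_CORE`: the induction (helper56).  `S_NUMA`, `S_NUMB`: numbers.  `x = ‖q‖`.
-/

set_option autoImplicit false

open Finset Polynomial Pool.Agent.HP

namespace Pool.Agent.HUBT

/-- **CORE**.  `κ v > 0` numbers on the vertices, weight of `v` = `lam / ‖q‖ * κ v`. -/
def S_CORE : Prop :=
  ∀ (q : ℂ) (lam c : ℝ), 1 < ‖q‖ → 0 < lam → 0 ≤ c →
    ∀ (V : Type) [Fintype V] [DecidableEq V] (L : SimpleGraph V) [DecidableRel L.Adj] (κ : V → ℝ)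
      (D : V → ℕ) (η : V → ℝ),
      (∀ v, (univ.filter (fun z => L.Adj v z)).card ≤ D v) →
      (∀ v, lam / ‖q‖ * ∑ z ∈ univ.filter (fun z => L.Adj v z), κ z ≤ η v) →
      (∀ v, Cond ‖q‖ lam c (κ v) (D v) (η v)) →
      (chi L).eval q ≠ 0

/-- **SMALL** (one-variable inequality).  With `v = e ^ (w / 2) ≥ 1`, `w ≥ 2 (1 - 1 / v)`, `E = e ^ η`:
`S (v - 1) + E (v ^ 2 - 1) - w + 2 c e ^ (η / 2) (v - 1) ≤ (v - 1) (S + 2 c e ^ (η / 2) + E (v + 1) - 2 / v) ≤ 2 ρ (v ^ 2 - 1)`, since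
`(2 ρ - E) (v + 1) + 2 / v ≥ (v + 1) / 2 + 2 / v ≥ 5 / 2`. -/
def S_SMALL : Prop :=
  ∀ (c η ρ : ℝ), 0 ≤ c → Real.exp η + 1 / 2 ≤ 2 * ρ →
    Phi c η - Phi c 0 + 2 * c * Real.exp (η / 2) ≤ 5 / 2 →
    ∀ w : ℝ, 0 ≤ w → (Phi c η - Phi c 0) * (Real.exp (w / 2) - 1) + (Phi c (η + w) - Phi c η) ≤
      2 * ρ * (Real.exp w - 1)

/-- **LARGE**.  `v = e ^ (w / 2) ≥ 1`: the left side is at most
`(v - 1) (S + 2 c e ^ (η / 2) + E (v + 1)) ≤ (v ^ 2 - 1) ((S + 2 c e ^ (η / 2)) / 2 + E)` (`S + 2 c e ^ (η / 2) ≥ 0`, `v + 1 ≥ 2`). -/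
def S_LARGE : Prop :=
  ∀ (c η B : ℝ), 0 ≤ c → 0 ≤ η →
    (Phi c η - Phi c 0 + 2 * c * Real.exp (η / 2)) / 2 + Real.exp η ≤ B →
    ∀ w : ℝ, 0 ≤ w → (Phi c η - Phi c 0) * (Real.exp (w / 2) - 1) + (Phi c (η + w) - Phi c η) ≤
      B * (Real.exp w - 1)

/-- **NUMA** (`K = 1`): `lam = 37`, `M = 7 / 2`, `c = 37 / 40`.  `d = Δ / 20`, `h = Δ / 1000`, `x ≥ Δ ≥ 1000`.
Vertices of small degree: `k = 2 / 37`, at most `d ≤ x / 20` neighbours, `η = 1 / 10 + 37 * (7 / 2) / 1000 = 0.2295`;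
hubs: `k = 7 / 2`, at most `Δ ≤ x` neighbours, `η = 2 + 37 * (7 / 2) / 1000 = 2.1295`.  `(1 - 1 / x) ^ D ≥ 1 - D / x ≥ 0.95`; for hubs
`(1 - 1 / x) ^ D ≥ e ^ (- D / (x - 1)) ≥ e ^ (- 1000 / 999)`.  `e ^ 0.2295 = 1.25797`, `e ^ 0.11475 = 1.12159`,
`e ^ 2.1295 = 8.41066`, `e ^ 1.06475 = 2.90011`.  SMALL (slacks `.13`, `.17`), LARGE. -/
def S_NUMA : Prop :=
  ∀ (x : ℝ), 1000 ≤ x →
    (∀ d : ℕ, 20 * (d : ℝ) ≤ x → Cond x 37 (37 / 40) (2 / 37) d (2295 / 10000)) ∧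
    (∀ D : ℕ, (D : ℝ) ≤ x → Cond x 37 (37 / 40) (7 / 2) D (21295 / 10000))

/-- **NUMB** (`K ≥ 1` real, `R = 300 ^ K`): `lam = (7 / 2) e ^ (3 K)`, `M = 5 / 4`, `c = 4 / 5`; `h R ≤ Δ`, `Δ ≤ K x`, `h ≥ 1`, so
`x ≥ R / K`.  Small: `k = 2 / lam`, at most `h ≤ K x / R` neighbours, `η = K (2 + lam M) / R ≤ 0.3`; hubs: `k = 5 / 4`, at most
`Δ ≤ K x` neighbours, `η = 2 K + K (2 + lam M) / R`. -/
def S_NUMB : Prop :=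
  ∀ (x K : ℝ), 1 ≤ K → (300 : ℝ) ^ K ≤ K * x →
    (∀ h : ℕ, (h : ℝ) * (300 : ℝ) ^ K ≤ K * x → Cond x (7 / 2 * Real.exp (3 * K)) (4 / 5)
      (2 / (7 / 2 * Real.exp (3 * K))) h (K * (2 + 7 / 2 * Real.exp (3 * K) * (5 / 4)) / (300 : ℝ) ^ K)) ∧
    (∀ D : ℕ, (D : ℝ) ≤ K * x → Cond x (7 / 2 * Real.exp (3 * K)) (4 / 5) (5 / 4) D
      (2 * K + K * (2 + 7 / 2 * Real.exp (3 * K) * (5 / 4)) / (300 : ℝ) ^ K))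

end Pool.Agent.HUBT
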